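import Pool.Agent.KLC.Vertex

/-!
# The statuses attached to a convex (concave) function

For a line `l` at the abscissa `x` look at the (concave) function `a ↦ l(x) - (f a + a x)`, i.e. at
the lines `y = a x + f a` below, through or above the point `(x, l(x))`.
-/

namespace Pool.Agent.KLC

open Finset Pool.Agent.KL Pool.Agent.KLS

/-- the four statuses of a line with respect to the lines `y = a x + f a` -/
def St (f : ℝ → ℝ) (j : Fin 4) (l : ℝ × ℝ) (x : ℝ) : Prop :=
  match j with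
  | 0 => ∃ a ≤ l.1, f a + a * x ≤ ev l x
  | 1 => ev l x ≤ f l.1 + l.1 * x ∧ ∃ a < l.1, f a + a * x < ev l x
  | 2 => ∃ a < l.1, f a + a * x ≤ ev l x
  | 3 => ev l x < f l.1 + l.1 * x ∧ ∃ a < l.1, f a + a * x ≤ ev l x

theorem conv3 {f : ℝ → ℝ} (hf : ConvexOn ℝ Set.univ f) {a b c : ℝ} (hab : a < b) (hbc : b < c) :
    (c - a) * f b ≤ (c - b) * f a + (b - a) * f c := by
  have h := hf.slope_mono_adjacent (Set.mem_univ a) (Set.mem_univ c) hab hbc
  rw [div_le_div_iff₀ (by linarith) (by linarith)] at h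
  nlinarith

/-- monotonicity along a line -/
theorem St_time (f : ℝ → ℝ) (j : Fin 4) (l : ℝ × ℝ) {x x' : ℝ} (hx : x < x') (h : St f j l x) :
    St f j l x' := by
  have key : ∀ a ≤ l.1, (f a + a * x ≤ ev l x → f a + a * x' ≤ ev l x') ∧
      (f a + a * x < ev l x → f a + a * x' < ev l x') := by
    intro a ha
    unfold ev
    have h1 : 0 ≤ (l.1 - a) * (x' - x) := mul_nonneg (by linarith) (by linarith)
    constructor <;> intro h2 <;> nlinarith
  fin_cases j
  · obtain ⟨a, ha, h⟩ := h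
    exact ⟨a, ha, (key a ha).1 h⟩
  · obtain ⟨h0, a, ha, h⟩ := h
    refine ⟨?_, a, ha, (key a ha.le).2 h⟩
    unfold ev at h0 ⊢
    linarith
  · obtain ⟨a, ha, h⟩ := h
    exact ⟨a, ha, (key a ha.le).1 h⟩
  · obtain ⟨h0, a, ha, h⟩ := h
    refine ⟨?_, a, ha, (key a ha.le).1 h⟩
    unfold ev at h0 ⊢
    linarith

/-- monotonicity in the slope at a point -/
theorem St_slope {f : ℝ → ℝ} (hf : ConvexOn ℝ Set.univ f) (j : Fin 4) {u w : ℝ × ℝ}
    (hs : u.1 < w.1) {x : ℝ} (hx : ev u x = ev w x) (h : St f j u x) : St f j w x := by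
  fin_cases j
  · obtain ⟨a, ha, h⟩ := h
    exact ⟨a, by linarith, by rw [← hx]; exact h⟩
  · obtain ⟨h0, a, ha, h⟩ := h
    refine ⟨?_, a, by linarith, by rw [← hx]; exact h⟩
    by_contra hc
    push Not at hc
    have h3 := conv3 hf ha hs
    rw [hx] at h0 h
    nlinarith [mul_pos (sub_pos.2 hs) (sub_pos.2 h), mul_pos (sub_pos.2 ha) (sub_pos.2 hc),
      mul_nonneg (sub_pos.2 (ha.trans hs)).le (sub_nonneg.2 h0)]
  · obtain ⟨a, ha, h⟩ := h
    exact ⟨a, by linarith, by rw [← hx]; exact h⟩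
  · obtain ⟨h0, a, ha, h⟩ := h
    refine ⟨?_, a, by linarith, by rw [← hx]; exact h⟩
    by_contra hc
    push Not at hc
    have h3 := conv3 hf ha hs
    rw [hx] at h0 h
    nlinarith [mul_nonneg (sub_pos.2 hs).le (sub_nonneg.2 h), mul_nonneg (sub_pos.2 ha).le
      (sub_nonneg.2 hc), mul_pos (sub_pos.2 (ha.trans hs)) (sub_pos.2 h0)]

theorem St_rise {f : ℝ → ℝ} (hf : ConvexOn ℝ Set.univ f) (Γ : Finset (ℝ × ℝ)) (j : Fin 4) :
    Rise Γ (St f j) :=
  ⟨fun l _ _ _ hx h => St_time f j l hx h, fun _ _ _ _ hs _ hx h => St_slope hf j hs hx h⟩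

/-- The vertices whose steeper line belongs to the family are separated by one of the first two
statuses. -/
theorem cls_w {f : ℝ → ℝ} (hf : ConvexOn ℝ Set.univ f) {u w : ℝ × ℝ} (hs : u.1 < w.1) {x0 y0 : ℝ}
    (hu : ev u x0 = y0) (hw : ev w x0 = y0) (hwf : w.2 = f w.1) {x x' : ℝ} (hx : x < x0)
    (hx' : x0 < x') : (¬ St f 0 u x ∧ St f 0 w x') ∨ (¬ St f 1 u x ∧ St f 1 w x') := by
  by_cases H : ∃ b < w.1, f b + b * x0 ≤ y0
  · obtain ⟨b, hb, h⟩ := H
    right
    constructor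
    · rintro ⟨h0, a, ha, h1⟩
      have h3 := conv3 hf ha hs
      have h4 : f a + a * x0 < y0 := by
        have h5 : 0 < (u.1 - a) * (x0 - x) := mul_pos (by linarith) (by linarith)
        unfold ev at h1 hu
        nlinarith
      have h5 : y0 ≤ f u.1 + u.1 * x0 := by
        unfold ev at h0 hu
        linarith
      have h6 : f w.1 + w.1 * x0 = y0 := by
        unfold ev at hw
        linarith
      nlinarith [mul_pos (sub_pos.2 hs) (sub_pos.2 h4),
        mul_nonneg (sub_pos.2 (ha.trans hs)).le (sub_nonneg.2 h5)]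
    · refine ⟨by unfold ev; linarith, b, hb, ?_⟩
      have h5 : 0 < (w.1 - b) * (x' - x0) := mul_pos (by linarith) (by linarith)
      unfold ev at hw ⊢
      nlinarith
  · push Not at H
    left
    constructor
    · rintro ⟨a, ha, h1⟩
      have h2 := H a (by linarith)
      have h5 : 0 ≤ (u.1 - a) * (x0 - x) := mul_nonneg (by linarith) (by linarith)
      unfold ev at h1 hu
      nlinarith
    · exact ⟨w.1, le_rfl, by unfold ev; linarith⟩

/-- The vertices between whose lines (with respect to the slope) there is a line of the family are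
separated by one of the four statuses. -/
theorem cls {f : ℝ → ℝ} (hf : ConvexOn ℝ Set.univ f) {u w : ℝ × ℝ} (hs : u.1 < w.1) {x0 y0 : ℝ}
    (hu : ev u x0 = y0) (hw : ev w x0 = y0) {b : ℝ} (hub : u.1 ≤ b) (hbw : b ≤ w.1)
    (hb : f b + b * x0 = y0) {x x' : ℝ} (hx : x < x0) (hx' : x0 < x') :
    ∃ j, ¬ St f j u x ∧ St f j w x' := by
  rcases eq_or_lt_of_le hbw with rfl | hbw
  · rcases cls_w hf hs hu hw (by unfold ev at hw; linarith) hx hx' with h | h
    · exact ⟨0, h⟩
    · exact ⟨1, h⟩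
  have hbx' : f b + b * x' < ev w x' := by
    have h5 : 0 < (w.1 - b) * (x' - x0) := mul_pos (by linarith) (by linarith)
    unfold ev at hw ⊢
    nlinarith
  by_cases H : St f 2 u x
  · obtain ⟨a, ha, h1⟩ := H
    have h4 : f a + a * x0 < y0 := by
      have h5 : 0 < (u.1 - a) * (x0 - x) := mul_pos (by linarith) (by linarith)
      unfold ev at h1 hu
      nlinarith
    refine ⟨3, ?_, ?_, b, hbw, hbx'.le⟩
    · rintro ⟨h0, -⟩
      have h5 : y0 < f u.1 + u.1 * x0 := by
        unfold ev at h0 hu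
        linarith
      rcases eq_or_lt_of_le hub with h6 | h6
      · rw [← h6] at hb; linarith
      · have h3 := conv3 hf ha h6
        nlinarith [mul_pos (sub_pos.2 h6) (sub_pos.2 h4),
          mul_pos (sub_pos.2 (ha.trans h6)) (sub_pos.2 h5)]
    · have h6 : y0 < f w.1 + w.1 * x0 := by
        by_contra hc
        push Not at hc
        have hab : a < b := by linarith
        have h3 := conv3 hf hab hbw
        nlinarith [mul_pos (sub_pos.2 hbw) (sub_pos.2 h4),
          mul_nonneg (sub_pos.2 hab).le (sub_nonneg.2 hc)]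
      unfold ev at hw ⊢
      linarith
  · exact ⟨2, H, b, hbw, hbx'.le⟩

/-! ### Concave functions, by the point reflection -/

/-- the point reflection of a line -/
def rfl' (l : ℝ × ℝ) : ℝ × ℝ := (l.1, - l.2)

theorem ev_rfl' (l : ℝ × ℝ) (x : ℝ) : ev (rfl' l) (- x) = - ev l x := by
  unfold ev rfl'; ring

/-- the four statuses of a line with respect to the lines `y = a x + g a`, `g` concave -/
def Sf (g : ℝ → ℝ) (j : Fin 4) (l : ℝ × ℝ) (x : ℝ) : Prop := St (fun a => - g a) j (rfl' l) (- x)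

theorem Sf_fall {g : ℝ → ℝ} (hg : ConcaveOn ℝ Set.univ g) (Γ : Finset (ℝ × ℝ)) (j : Fin 4) :
    Fall Γ (Sf g j) := by
  have hf : ConvexOn ℝ Set.univ fun a => - g a := hg.neg
  constructor
  · intro l _ x x' hx h
    exact St_time _ j _ (by linarith) h
  · intro u _ w _ hs x hx h
    exact St_slope hf j (u := rfl' u) (w := rfl' w) hs (by rw [ev_rfl', ev_rfl', hx]) h

theorem cls_w' {g : ℝ → ℝ} (hg : ConcaveOn ℝ Set.univ g) {u w : ℝ × ℝ} (hs : u.1 < w.1) {x0 y0 : ℝ}
    (hu : ev u x0 = y0) (hw : ev w x0 = y0) (hwf : w.2 = g w.1) {x x' : ℝ} (hx : x < x0)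
    (hx' : x0 < x') : (Sf g 0 w x ∧ ¬ Sf g 0 u x') ∨ (Sf g 1 w x ∧ ¬ Sf g 1 u x') := by
  have hf : ConvexOn ℝ Set.univ fun a => - g a := hg.neg
  rcases cls_w hf (u := rfl' u) (w := rfl' w) hs (x0 := - x0) (y0 := - y0)
    (by rw [ev_rfl', hu]) (by rw [ev_rfl', hw]) (by unfold rfl'; simp only; rw [hwf])
    (x := - x') (x' := - x) (by linarith) (by linarith) with h | h
  · exact Or.inl ⟨h.2, h.1⟩
  · exact Or.inr ⟨h.2, h.1⟩

theorem cls' {g : ℝ → ℝ} (hg : ConcaveOn ℝ Set.univ g) {u w : ℝ × ℝ} (hs : u.1 < w.1) {x0 y0 : ℝ}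
    (hu : ev u x0 = y0) (hw : ev w x0 = y0) {b : ℝ} (hub : u.1 ≤ b) (hbw : b ≤ w.1)
    (hb : g b + b * x0 = y0) {x x' : ℝ} (hx : x < x0) (hx' : x0 < x') :
    ∃ j, Sf g j w x ∧ ¬ Sf g j u x' := by
  have hf : ConvexOn ℝ Set.univ fun a => - g a := hg.neg
  obtain ⟨j, h⟩ := cls hf (u := rfl' u) (w := rfl' w) hs (x0 := - x0) (y0 := - y0)
    (by rw [ev_rfl', hu]) (by rw [ev_rfl', hw]) (b := b) hub hbw (by linarith)
    (x := - x') (x' := - x) (by linarith) (by linarith)
  exact ⟨j, h.2, h.1⟩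

end Pool.Agent.KLC
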