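import Pool.Agent.KLC.Final

namespace Pool.Agent.KLC.ConvexFamilies

open Pool.Agent.KL Pool.Agent.KLC

/-- The `k`-level of lines from `s` convex families. The maximum `eConv s k n` of the complexity
of the `k`-level over all sets of `n` lines `y = a x + b` such that `b = f_i a` for one of `s`
convex functions `f_i` is at most `(2 s - 1) (2 (n - k) - 1)`, and this is attained, with
`min (k + 1) (n - k)` in place of `n - k`, up to the factor `1 - ε`. For the halving level both
bounds are `(2 s - 1) n` up to the factor `1 - ε`. -/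
theorem result (s k n : ℕ) (hs : 1 ≤ s) (hk : k < n) :
    eConv s k n ≤ (2 * s - 1) * (2 * (n - k) - 1) ∧
    ∀ ε : ℝ, 0 < ε → ε ≤ 1 →
      (2 * (s : ℝ) / ε) ^ (60 * Nat.log 2 (2 * s)) ≤ (min (k + 1) (n - k) : ℕ) →
      (1 - ε) * (((2 * s - 1) * (2 * min (k + 1) (n - k) - 1) : ℕ) : ℝ) ≤ eConv s k n :=
  ⟨eConv_le s k n hk, fun ε h1 h2 h3 => le_eConv s k n hs hk ε h1 h2 h3⟩

end Pool.Agent.KLC.ConvexFamilies
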