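import Pool.Agent.KLC.Upper
import Pool.Agent.KLS.Main

/-!
# A projective map: from `2 s` slopes to `s` convex functions
-/

namespace Pool.Agent.KLC

open Finset Filter Topology Pool.Agent.KL Pool.Agent.KLS

/-- the map on points -/
noncomputable def Tp (δ c : ℝ) (p : ℝ × ℝ) : ℝ × ℝ :=
  (p.1 / (1 - δ * (p.2 - c * p.1)), (p.2 - c * p.1) / (1 - δ * (p.2 - c * p.1)))

/-- the map on lines -/
noncomputable def Tl (δ c : ℝ) (l : ℝ × ℝ) : ℝ × ℝ :=
  ((l.1 - c) / (1 - δ * l.2), l.2 / (1 - δ * l.2))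

/-- the denominator -/
def Dn' (δ c : ℝ) (p : ℝ × ℝ) : ℝ := 1 - δ * (p.2 - c * p.1)

theorem Tp_sub {δ c : ℝ} {l p : ℝ × ℝ} (hl : 0 < 1 - δ * l.2) (hp : 0 < Dn' δ c p) :
    (Tp δ c p).2 - ev (Tl δ c l) (Tp δ c p).1 =
      (p.2 - ev l p.1) / ((1 - δ * l.2) * Dn' δ c p) := by
  have h1 : Dn' δ c p ≠ 0 := hp.ne'
  have h2 : 1 - δ * l.2 ≠ 0 := hl.ne'
  unfold Tp Tl ev Dn' at *
  simp only
  rw [div_mul_div_comm, eq_div_iff (mul_ne_zero h2 h1)]
  have e1 : (l.1 - c) * p.1 / ((1 - δ * l.2) * (1 - δ * (p.2 - c * p.1))) *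
      ((1 - δ * l.2) * (1 - δ * (p.2 - c * p.1))) = (l.1 - c) * p.1 :=
    div_mul_cancel₀ _ (mul_ne_zero h2 h1)
  have e2 : (p.2 - c * p.1) / (1 - δ * (p.2 - c * p.1)) * (1 - δ * (p.2 - c * p.1)) =
      p.2 - c * p.1 := div_mul_cancel₀ _ h1
  have e3 : l.2 / (1 - δ * l.2) * (1 - δ * l.2) = l.2 := div_mul_cancel₀ _ h2
  have e4 : ((p.2 - c * p.1) / (1 - δ * (p.2 - c * p.1)) -
      ((l.1 - c) * p.1 / ((1 - δ * l.2) * (1 - δ * (p.2 - c * p.1))) + l.2 / (1 - δ * l.2))) *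
      ((1 - δ * l.2) * (1 - δ * (p.2 - c * p.1))) =
      (p.2 - c * p.1) / (1 - δ * (p.2 - c * p.1)) * (1 - δ * (p.2 - c * p.1)) * (1 - δ * l.2) -
      ((l.1 - c) * p.1 / ((1 - δ * l.2) * (1 - δ * (p.2 - c * p.1))) *
        ((1 - δ * l.2) * (1 - δ * (p.2 - c * p.1))) +
        l.2 / (1 - δ * l.2) * (1 - δ * l.2) * (1 - δ * (p.2 - c * p.1))) := by ring
  rw [e4, e1, e2, e3]
  ring

theorem Tp_lt {δ c : ℝ} {l p : ℝ × ℝ} (hl : 0 < 1 - δ * l.2) (hp : 0 < Dn' δ c p) :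
    ev (Tl δ c l) (Tp δ c p).1 < (Tp δ c p).2 ↔ ev l p.1 < p.2 := by
  have h := Tp_sub hl hp
  rw [← sub_pos, h, div_pos_iff_of_pos_right (mul_pos hl hp), sub_pos]

theorem Tp_eq {δ c : ℝ} {l p : ℝ × ℝ} (hl : 0 < 1 - δ * l.2) (hp : 0 < Dn' δ c p) :
    ev (Tl δ c l) (Tp δ c p).1 = (Tp δ c p).2 ↔ ev l p.1 = p.2 := by
  have h := Tp_sub hl hp
  constructor
  · intro h1
    rw [h1, sub_self, eq_comm, div_eq_zero_iff] at h
    rcases h with h | h
    · linarith
    · exact absurd h (mul_pos hl hp).ne'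
  · intro h1
    rw [h1, sub_self, zero_div] at h
    linarith

theorem Tl_inj {δ c : ℝ} {l l' : ℝ × ℝ} (hl : 0 < 1 - δ * l.2) (hl' : 0 < 1 - δ * l'.2)
    (h : Tl δ c l = Tl δ c l') : l = l' := by
  unfold Tl at h
  have h1 := congrArg Prod.fst h
  have h2 := congrArg Prod.snd h
  simp only at h1 h2
  rw [div_eq_div_iff hl.ne' hl'.ne'] at h1 h2
  have h3 : l.2 = l'.2 := by linarith
  rw [h3] at h1
  have h4 : l.1 - c = l'.1 - c := mul_right_cancel₀ hl'.ne' h1
  exact Prod.ext (by linarith) h3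

theorem Tp_inj {δ c : ℝ} {p p' : ℝ × ℝ} (hp : 0 < Dn' δ c p) (hp' : 0 < Dn' δ c p')
    (h : Tp δ c p = Tp δ c p') : p = p' := by
  unfold Tp at h
  unfold Dn' at hp hp'
  have h1 := congrArg Prod.fst h
  have h2 := congrArg Prod.snd h
  simp only at h1 h2
  rw [div_eq_div_iff hp.ne' hp'.ne'] at h1 h2
  have h3 : p.2 - c * p.1 = p'.2 - c * p'.1 := by linarith
  rw [h3] at h1
  have h4 : p.1 = p'.1 := mul_right_cancel₀ hp'.ne' h1
  refine Prod.ext h4 ?_
  rw [h4] at h3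
  linarith

section
variable {Γ : Finset (ℝ × ℝ)} {δ c : ℝ} (hΓ : ∀ l ∈ Γ, 0 < 1 - δ * l.2)

/-- the image arrangement -/
noncomputable def Im (Γ : Finset (ℝ × ℝ)) (δ c : ℝ) : Finset (ℝ × ℝ) := by
  classical exact Γ.image (Tl δ c)

include hΓ

theorem Im_card : (Im Γ δ c).card = Γ.card := by
  classical
  unfold Im
  refine Finset.card_image_of_injOn ?_
  intro l hl l' hl' h
  exact Tl_inj (hΓ l hl) (hΓ l' hl') h

theorem level_Im {p : ℝ × ℝ} (hp : 0 < Dn' δ c p) :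
    level (Im Γ δ c) (Tp δ c p) = level Γ p := by
  classical
  unfold level Im
  rw [Finset.filter_image, Finset.card_image_of_injOn]
  · congr 1
    apply Finset.filter_congr
    intro l hl
    exact Tp_lt (hΓ l hl) hp
  · intro l hl l' hl' h
    rw [Finset.coe_filter] at hl hl'
    exact Tl_inj (hΓ l hl.1) (hΓ l' hl'.1) h

omit hΓ in
theorem isOpen_Dn : IsOpen {p : ℝ × ℝ | 0 < Dn' δ c p} := by
  have : Continuous fun p : ℝ × ℝ => Dn' δ c p := by unfold Dn'; fun_prop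
  exact isOpen_lt continuous_const this

omit hΓ in
theorem Tp_cont {p : ℝ × ℝ} (hp : 0 < Dn' δ c p) : ContinuousAt (Tp δ c) p := by
  have h1 : ContinuousAt (fun p : ℝ × ℝ => 1 - δ * (p.2 - c * p.1)) p := by fun_prop
  have h2 : (1 - δ * (p.2 - c * p.1)) ≠ 0 := hp.ne'
  have h3 : ContinuousAt (fun p : ℝ × ℝ => p.1) p := by fun_prop
  have h4 : ContinuousAt (fun p : ℝ × ℝ => p.2 - c * p.1) p := by fun_prop
  exact (h3.div h1 h2).prodMk (h4.div h1 h2)

theorem kLevel_Im {k : ℕ} {p : ℝ × ℝ} (hp : 0 < Dn' δ c p) (h : p ∈ kLevel Γ k) :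
    Tp δ c p ∈ kLevel (Im Γ δ c) k := by
  classical
  have hO : IsOpen {p : ℝ × ℝ | 0 < Dn' δ c p} := isOpen_Dn
  have h1 : p ∈ closure ({p : ℝ × ℝ | 0 < Dn' δ c p} ∩
      {p | (∃ l ∈ Γ, ev l p.1 = p.2) ∧ level Γ p = k}) := hO.inter_closure ⟨hp, h⟩
  have h2 : Tp δ c p ∈ closure (Tp δ c '' ({p : ℝ × ℝ | 0 < Dn' δ c p} ∩
      {p | (∃ l ∈ Γ, ev l p.1 = p.2) ∧ level Γ p = k})) :=
    (Tp_cont hp).continuousWithinAt.mem_closure_image h1
  refine closure_mono ?_ h2
  rintro _ ⟨q, ⟨hq, ⟨l, hl, hl1⟩, hq2⟩, rfl⟩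
  refine ⟨⟨Tl δ c l, ?_, (Tp_eq (hΓ l hl) hq).2 hl1⟩, ?_⟩
  · unfold Im; exact Finset.mem_image_of_mem _ hl
  · rw [level_Im hΓ hq]; exact hq2

omit hΓ in
/-- the abscissa of the image is increasing along a line -/
theorem mono_x {l : ℝ × ℝ} (hl : 0 < 1 - δ * l.2) {x x' : ℝ} (hx : 0 < Dn' δ c (x, ev l x))
    (hx' : 0 < Dn' δ c (x', ev l x')) (h : x < x') :
    (Tp δ c (x, ev l x)).1 < (Tp δ c (x', ev l x')).1 := by
  unfold Tp Dn' at *
  simp only at *
  rw [div_lt_div_iff₀ hx hx']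
  unfold ev
  have : 0 < (x' - x) * (1 - δ * l.2) := mul_pos (by linarith) hl
  nlinarith

theorem side_Im {k : ℕ} {l : ℝ × ℝ} (hl : l ∈ Γ) {a b : ℝ} (hab : a < b)
    (hD : ∀ x ∈ Set.Icc a b, 0 < Dn' δ c (x, ev l x))
    (h : ∀ x ∈ Set.Icc a b, (x, ev l x) ∈ kLevel Γ k) :
    ∀ x' ∈ Set.Icc (Tp δ c (a, ev l a)).1 (Tp δ c (b, ev l b)).1,
      (x', ev (Tl δ c l) x') ∈ kLevel (Im Γ δ c) k := by
  intro x' hx'
  have hc : ContinuousOn (fun x => (Tp δ c (x, ev l x)).1) (Set.Icc a b) := by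
    intro x hx
    have h1 : ContinuousAt (fun x : ℝ => ((x, ev l x) : ℝ × ℝ)) x := by
      have := ev_cont l
      fun_prop
    have h2 : ContinuousAt (Tp δ c ∘ fun x : ℝ => ((x, ev l x) : ℝ × ℝ)) x :=
      ContinuousAt.comp (Tp_cont (hD x hx)) h1
    exact (continuousAt_fst.comp h2).continuousWithinAt
  obtain ⟨x, hx, hxx⟩ := intermediate_value_Icc hab.le hc hx'
  simp only at hxx
  have h1 := kLevel_Im hΓ (hD x hx) (h x hx)
  have h2 := (Tp_eq (hΓ l hl) (hD x hx)).2 rfl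
  have h3 : Tp δ c (x, ev l x) = (x', ev (Tl δ c l) x') := by
    rw [hxx] at h2
    exact Prod.ext hxx h2.symm
  rw [h3] at h1
  exact h1

theorem vertex_Im {k : ℕ} {p : ℝ × ℝ} (hp : 0 < Dn' δ c p) (h : IsVertex Γ k p) :
    IsVertex (Im Γ δ c) k (Tp δ c p) := by
  classical
  obtain ⟨l, hl, l', hl', hne, h1, h2, d, hd, h3, h4⟩ := h
  have hD : ∀ l : ℝ × ℝ, ev l p.1 = p.2 → ∀ᶠ x in 𝓝 p.1, 0 < Dn' δ c (x, ev l x) := by
    intro l hl
    have hc : ContinuousAt (fun x : ℝ => Dn' δ c (x, ev l x)) p.1 := by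
      have := ev_cont l
      unfold Dn'
      fun_prop
    refine hc.eventually (lt_mem_nhds ?_)
    show 0 < Dn' δ c (p.1, ev l p.1)
    rw [hl]
    exact hp
  obtain ⟨r, hr, hball⟩ := Metric.eventually_nhds_iff_ball.1 ((hD l h1).and (hD l' h2))
  set η := min d r / 2 with hη
  have hη0 : 0 < η := by positivity
  have hη1 : η < r := by
    have := min_le_right d r
    have := min_le_left d r
    rw [hη]; linarith
  have hη2 : η < d := by
    have := min_le_left d r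
    rw [hη]; linarith
  have hb : ∀ x, p.1 - η ≤ x → x ≤ p.1 + η → 0 < Dn' δ c (x, ev l x) ∧
      0 < Dn' δ c (x, ev l' x) := by
    intro x hx1 hx2
    refine hball x ?_
    rw [Metric.mem_ball, Real.dist_eq, abs_lt]
    constructor <;> linarith
  have e1 : ((p.1, ev l p.1) : ℝ × ℝ) = p := by rw [h1]
  have e2 : ((p.1, ev l' p.1) : ℝ × ℝ) = p := by rw [h2]
  have s1 := side_Im hΓ hl (k := k) (a := p.1 - η) (b := p.1) (by linarith)
    (fun x hx => (hb x hx.1 (by linarith [hx.2])).1) (fun x hx => h3 x ⟨by linarith [hx.1], hx.2⟩)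
  have s2 := side_Im hΓ hl' (k := k) (a := p.1) (b := p.1 + η) (by linarith)
    (fun x hx => (hb x (by linarith [hx.1]) hx.2).2) (fun x hx => h4 x ⟨hx.1, by linarith [hx.2]⟩)
  have m1 := mono_x (c := c) (hΓ l hl) (hb (p.1 - η) (by linarith) (by linarith)).1
    (x' := p.1) (by rw [e1]; exact hp) (by linarith)
  have m2 := mono_x (c := c) (hΓ l' hl') (x := p.1) (by rw [e2]; exact hp)
    (hb (p.1 + η) (by linarith) (by linarith)).2 (by linarith)
  rw [e1] at s1 m1
  rw [e2] at s2 m2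
  refine ⟨Tl δ c l, ?_, Tl δ c l', ?_, ?_, (Tp_eq (hΓ l hl) hp).2 h1, (Tp_eq (hΓ l' hl') hp).2 h2,
    min ((Tp δ c p).1 - (Tp δ c (p.1 - η, ev l (p.1 - η))).1)
      ((Tp δ c (p.1 + η, ev l' (p.1 + η))).1 - (Tp δ c p).1), ?_, ?_, ?_⟩
  · unfold Im; exact Finset.mem_image_of_mem _ hl
  · unfold Im; exact Finset.mem_image_of_mem _ hl'
  · intro h
    exact hne (Tl_inj (hΓ l hl) (hΓ l' hl') h)
  · exact lt_min (by linarith) (by linarith)
  · intro x hx
    refine s1 x ⟨?_, hx.2⟩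
    have := min_le_left ((Tp δ c p).1 - (Tp δ c (p.1 - η, ev l (p.1 - η))).1)
      ((Tp δ c (p.1 + η, ev l' (p.1 + η))).1 - (Tp δ c p).1)
    linarith [hx.1]
  · intro x hx
    refine s2 x ⟨hx.1, ?_⟩
    have := min_le_right ((Tp δ c p).1 - (Tp δ c (p.1 - η, ev l (p.1 - η))).1)
      ((Tp δ c (p.1 + η, ev l' (p.1 + η))).1 - (Tp δ c p).1)
    linarith [hx.2]

theorem psi_Im {k : ℕ} (hV : ∀ p, IsVertex Γ k p → 0 < Dn' δ c p) :
    psi Γ k ≤ psi (Im Γ δ c) k := by
  unfold psi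
  refine Set.ncard_le_ncard_of_injOn (Tp δ c) (fun p hp => vertex_Im hΓ (hV p hp) hp) ?_
    (vertex_finite _ _)
  intro p hp q hq h
  exact Tp_inj (hV p hp) (hV q hq) h

end

/-- a small enough `δ` -/
theorem exists_delta (Γ : Finset (ℝ × ℝ)) (k : ℕ) (c : ℝ) : ∃ δ : ℝ, 0 < δ ∧
    (∀ l ∈ Γ, 0 < 1 - δ * l.2) ∧ ∀ p, IsVertex Γ k p → 0 < Dn' δ c p := by
  classical
  have h1 : ∀ᶠ δ in 𝓝[>] (0 : ℝ), ∀ l ∈ Γ, 0 < 1 - δ * l.2 := by
    rw [Finset.eventually_all]
    intro l _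
    have hc : ContinuousAt (fun δ : ℝ => 1 - δ * l.2) 0 := by fun_prop
    exact nhdsWithin_le_nhds (hc.eventually (lt_mem_nhds (by simp)))
  have h2 : ∀ᶠ δ in 𝓝[>] (0 : ℝ), ∀ p ∈ (vertex_finite Γ k).toFinset, 0 < Dn' δ c p := by
    rw [Finset.eventually_all]
    intro p _
    have hc : ContinuousAt (fun δ : ℝ => Dn' δ c p) 0 := by unfold Dn'; fun_prop
    exact nhdsWithin_le_nhds (hc.eventually (lt_mem_nhds (by unfold Dn'; simp)))
  obtain ⟨δ, ⟨h3, h4⟩, h5⟩ := ((h1.and h2).and self_mem_nhdsWithin).exists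
  exact ⟨δ, h5, h3, fun p hp => h4 p ((vertex_finite Γ k).mem_toFinset.2 hp)⟩

/-- a threshold with a prescribed number of elements below it -/
theorem exists_threshold (S : Finset ℝ) (j : ℕ) (hj : j ≤ S.card) :
    ∃ c, c ∉ S ∧ (S.filter fun σ => σ < c).card = j := by
  classical
  induction j with
  | zero =>
    rcases S.eq_empty_or_nonempty with rfl | hne
    · exact ⟨0, by simp, by simp⟩
    · refine ⟨S.min' hne - 1, ?_, ?_⟩
      · intro h
        have := S.min'_le _ h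
        linarith
      · rw [Finset.card_eq_zero, Finset.filter_eq_empty_iff]
        intro σ hσ
        have := S.min'_le _ hσ
        intro h
        linarith
  | succ j ih =>
    obtain ⟨c, hc, hcj⟩ := ih (by omega)
    have hne : (S.filter fun σ => c < σ).Nonempty := by
      rw [Finset.nonempty_iff_ne_empty]
      intro h
      have h1 : S ⊆ S.filter fun σ => σ < c := by
        intro σ hσ
        rw [Finset.mem_filter]
        refine ⟨hσ, ?_⟩
        rcases lt_trichotomy σ c with h2 | h2 | h2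
        · exact h2
        · exact absurd (h2 ▸ hσ) hc
        · have : σ ∈ S.filter fun σ => c < σ := Finset.mem_filter.2 ⟨hσ, h2⟩
          rw [h] at this
          exact absurd this (Finset.notMem_empty _)
      have := Finset.card_le_card h1
      omega
    set m := (S.filter fun σ => c < σ).min' hne with hm
    have hmS := Finset.mem_filter.1 ((S.filter fun σ => c < σ).min'_mem hne)
    rw [← hm] at hmS
    obtain ⟨c', hc', hc'm⟩ : ∃ c', (∀ σ ∈ S, m < σ → c' < σ) ∧ m < c' := by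
      have h : ∀ᶠ c' in 𝓝[>] m, ∀ σ ∈ S, m < σ → c' < σ := by
        rw [Finset.eventually_all]
        intro σ _
        by_cases hσ : m < σ
        · exact nhdsWithin_le_nhds ((gt_mem_nhds hσ).mono fun x hx _ => hx)
        · exact Eventually.of_forall fun x h => absurd h hσ
      obtain ⟨c', h1, h2⟩ := (h.and self_mem_nhdsWithin).exists
      exact ⟨c', h1, h2⟩
    refine ⟨c', ?_, ?_⟩
    · intro h
      exact absurd (hc' c' h hc'm) (lt_irrefl _)
    · have h1 : (S.filter fun σ => σ < c') = insert m (S.filter fun σ => σ < c) := by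
        ext σ
        rw [Finset.mem_insert, Finset.mem_filter, Finset.mem_filter]
        constructor
        · rintro ⟨h1, h2⟩
          rcases lt_trichotomy σ c with h3 | h3 | h3
          · exact Or.inr ⟨h1, h3⟩
          · exact absurd (h3 ▸ h1) hc
          · left
            have h4 : m ≤ σ := Finset.min'_le _ _ (Finset.mem_filter.2 ⟨h1, h3⟩)
            rcases eq_or_lt_of_le h4 with h5 | h5
            · exact h5.symm
            · exact absurd (hc' σ h1 h5) (not_lt.2 h2.le)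
        · rintro (rfl | ⟨h1, h2⟩)
          · exact ⟨hmS.1, hc'm⟩
          · exact ⟨h1, by linarith [hmS.2]⟩
      rw [h1, Finset.card_insert_of_notMem, hcj]
      intro h
      have := (Finset.mem_filter.1 h).2
      linarith [hmS.2]

/-- a sequence of length `s` running through a finite set with at most `s` elements -/
theorem exists_seq (L : Finset ℝ) (s : ℕ) (h : L.card ≤ s) (P : ℝ → Prop) (hP : ∀ σ ∈ L, P σ)
    (d : ℝ) (hd : P d) : ∃ a : Fin s → ℝ, (∀ i, P (a i)) ∧ ∀ σ ∈ L, ∃ i, a i = σ := by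
  classical
  refine ⟨fun i => L.toList.getD i d, ?_, ?_⟩
  · intro i
    by_cases hi : (i : ℕ) < L.toList.length
    · simp only [List.getD_eq_getElem _ _ hi]
      exact hP _ (Finset.mem_toList.1 (List.getElem_mem hi))
    · simp only [List.getD_eq_default _ _ (not_lt.1 hi)]
      exact hd
  · intro σ hσ
    obtain ⟨n, hn, h1⟩ := List.getElem_of_mem (Finset.mem_toList.2 hσ)
    rw [Finset.length_toList] at hn
    refine ⟨⟨n, by omega⟩, ?_⟩
    simp only
    rw [List.getD_eq_getElem _ _ (by rw [Finset.length_toList]; exact hn)]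
    exact h1

/-- From `2 s` slopes to `s` convex functions. -/
theorem to_convex (s k : ℕ) (Γ : Finset (ℝ × ℝ)) (hs : (Γ.image Prod.fst).card ≤ 2 * s) :
    ∃ (Γ' : Finset (ℝ × ℝ)) (f : Fin s → ℝ → ℝ), Γ'.card = Γ.card ∧
      (∀ i, ConvexOn ℝ Set.univ (f i)) ∧ (∀ l ∈ Γ', ∃ i, l.2 = f i l.1) ∧
      psi Γ k ≤ psi Γ' k := by
  classical
  set S := Γ.image Prod.fst with hS
  obtain ⟨c, hcS, hc⟩ := exists_threshold S (min s S.card) (min_le_right _ _)
  have hL : (S.filter fun σ => σ < c).card ≤ s := by rw [hc]; exact min_le_left _ _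
  have hR : (S.filter fun σ => c < σ).card ≤ s := by
    have h1 : (S.filter fun σ => c < σ).card + (S.filter fun σ => σ < c).card ≤ S.card := by
      rw [← Finset.card_union_of_disjoint]
      · exact Finset.card_le_card (Finset.union_subset (Finset.filter_subset _ _)
          (Finset.filter_subset _ _))
      · rw [Finset.disjoint_left]
        intro σ h1 h2
        have := (Finset.mem_filter.1 h1).2
        have := (Finset.mem_filter.1 h2).2
        linarith
    omega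
  obtain ⟨a, ha, ha'⟩ := exists_seq (S.filter fun σ => σ < c) s hL (fun σ => σ < c)
    (fun σ h => (Finset.mem_filter.1 h).2) (c - 1) (by linarith)
  obtain ⟨b, hb, hb'⟩ := exists_seq (S.filter fun σ => c < σ) s hR (fun σ => c < σ)
    (fun σ h => (Finset.mem_filter.1 h).2) (c + 1) (by linarith)
  obtain ⟨δ, hδ, h1, h2⟩ := exists_delta Γ k c
  refine ⟨Im Γ δ c, fun i => (fun x => (x / (a i - c) - 1) / δ) ⊔
    (fun x => (x / (b i - c) - 1) / δ), Im_card h1, ?_, ?_, psi_Im h1 h2⟩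
  · intro i
    have key : ∀ t : ℝ, ConvexOn ℝ Set.univ fun x : ℝ => (x / t - 1) / δ := by
      intro t
      refine ⟨convex_univ, ?_⟩
      intro x _ y _ a b _ _ hab
      simp only [smul_eq_mul]
      have : b = 1 - a := by linarith
      subst this
      apply le_of_eq
      ring
    exact (key _).sup (key _)
  · intro l' hl'
    unfold Im at hl'
    obtain ⟨l, hl, rfl⟩ := Finset.mem_image.1 hl'
    have hA := h1 l hl
    have hlS : l.1 ∈ S := Finset.mem_image_of_mem _ hl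
    have e : ∀ t : ℝ, t ≠ 0 → l.1 - c = t → ((Tl δ c l).1 / t - 1) / δ = (Tl δ c l).2 := by
      intro t ht htl
      unfold Tl
      simp only
      rw [htl]
      field_simp
      ring
    rcases lt_trichotomy l.1 c with h | h | h
    · obtain ⟨i, hi⟩ := ha' l.1 (Finset.mem_filter.2 ⟨hlS, h⟩)
      refine ⟨i, ?_⟩
      show (Tl δ c l).2 = max (((Tl δ c l).1 / (a i - c) - 1) / δ)
        (((Tl δ c l).1 / (b i - c) - 1) / δ)
      rw [hi, e (l.1 - c) (by linarith) rfl, eq_comm, max_eq_left_iff]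
      have h3 : (Tl δ c l).1 < 0 := by
        unfold Tl
        exact div_neg_of_neg_of_pos (by linarith) hA
      have h4 : (Tl δ c l).1 / (b i - c) < 0 := div_neg_of_neg_of_pos h3 (by linarith [hb i])
      rw [← e (l.1 - c) (by linarith) rfl]
      refine div_le_div_of_nonneg_right ?_ hδ.le
      have h5 : 0 ≤ (Tl δ c l).1 / (l.1 - c) := div_nonneg_of_nonpos h3.le (by linarith)
      linarith
    · exact absurd (h ▸ hlS) hcS
    · obtain ⟨i, hi⟩ := hb' l.1 (Finset.mem_filter.2 ⟨hlS, h⟩)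
      refine ⟨i, ?_⟩
      show (Tl δ c l).2 = max (((Tl δ c l).1 / (a i - c) - 1) / δ)
        (((Tl δ c l).1 / (b i - c) - 1) / δ)
      rw [hi, e (l.1 - c) (by linarith) rfl, eq_comm, max_eq_right_iff]
      have h3 : 0 < (Tl δ c l).1 := by
        unfold Tl
        exact div_pos (by linarith) hA
      have h4 : (Tl δ c l).1 / (a i - c) < 0 := div_neg_of_pos_of_neg h3 (by linarith [ha i])
      rw [← e (l.1 - c) (by linarith) rfl]
      refine div_le_div_of_nonneg_right ?_ hδ.le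
      have h5 : 0 ≤ (Tl δ c l).1 / (l.1 - c) := div_nonneg h3.le (by linarith)
      linarith

end Pool.Agent.KLC
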