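import Pool.Agent.KLC.Sets
import Pool.Agent.KLC.Proj

/-!
# Flags, unions of families, exact asymptotics
-/

namespace Pool.Agent.KLC

open Finset Pool.Agent.KL Pool.Agent.KLS

/-! ### Flags -/

/-- the status of a set `W` of flags (first type) -/
def FlR (W : Finset (ℝ × ℝ)) (θ : ℝ × ℝ → ℝ) (l : ℝ × ℝ) (x : ℝ) : Prop :=
  ∃ v ∈ W, v.1 < x ∧ ev l v.1 ≤ v.2 ∧ v.2 + θ v * (x - v.1) < ev l x

theorem FlR_rise (Γ W : Finset (ℝ × ℝ)) (θ : ℝ × ℝ → ℝ) : Rise Γ (FlR W θ) := by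
  constructor
  · rintro l _ x x' hx ⟨v, hv, h1, h2, h3⟩
    refine ⟨v, hv, h1.trans hx, h2, ?_⟩
    have h4 : θ v < l.1 := by
      by_contra hc
      push Not at hc
      unfold ev at h2 h3
      nlinarith
    unfold ev at h3 ⊢
    nlinarith
  · rintro u _ w _ hs x hx ⟨v, hv, h1, h2, h3⟩
    refine ⟨v, hv, h1, ?_, by rw [← hx]; exact h3⟩
    have : ev w v.1 ≤ ev u v.1 := by
      unfold ev at hx ⊢
      nlinarith
    linarith

/-- the status of a set `W` of flags (second type) -/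
def FlF (W : Finset (ℝ × ℝ)) (θ : ℝ × ℝ → ℝ) (l : ℝ × ℝ) (x : ℝ) : Prop :=
  ∃ v ∈ W, x < v.1 ∧ v.2 ≤ ev l v.1 ∧ ev l x < v.2 + θ v * (x - v.1)

theorem FlF_fall (Γ W : Finset (ℝ × ℝ)) (θ : ℝ × ℝ → ℝ) : Fall Γ (FlF W θ) := by
  constructor
  · rintro l _ x x' hx ⟨v, hv, h1, h2, h3⟩
    refine ⟨v, hv, hx.trans h1, h2, ?_⟩
    have h4 : θ v < l.1 := by
      by_contra hc
      push Not at hc
      unfold ev at h2 h3
      nlinarith
    unfold ev at h3 ⊢
    nlinarith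
  · rintro u _ w _ hs x hx ⟨v, hv, h1, h2, h3⟩
    refine ⟨v, hv, h1, ?_, by rw [← hx]; exact h3⟩
    have : ev u v.1 ≤ ev w v.1 := by
      unfold ev at hx ⊢
      nlinarith
    linarith

/-- The slope `t` lies strictly between the slopes of `l` and `l'`. -/
def SBtw (l l' : ℝ × ℝ) (t : ℝ) : Prop := min l.1 l'.1 < t ∧ t < max l.1 l'.1

theorem SBtw.elim {u w : ℝ × ℝ} {t : ℝ} (hs : u.1 < w.1) (h : SBtw u w t ∨ SBtw w u t) :
    u.1 < t ∧ t < w.1 := by
  rcases h with ⟨h1, h2⟩ | ⟨h1, h2⟩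
  · rw [min_eq_left hs.le] at h1
    rw [max_eq_right hs.le] at h2
    exact ⟨h1, h2⟩
  · rw [min_eq_right hs.le] at h1
    rw [max_eq_left hs.le] at h2
    exact ⟨h1, h2⟩

theorem flags {Γ : Finset (ℝ × ℝ)} {k : ℕ} (hk : k < Γ.card) (W : Finset (ℝ × ℝ))
    (θ : ℝ × ℝ → ℝ) (hW : ∀ v ∈ W, ∃ l l', Passes Γ k l l' v ∧ SBtw l l' (θ v))
    (hθ : ∀ v ∈ W, ∀ v' ∈ W, v'.2 ≤ v.2 + θ v * (v'.1 - v.1) ∨
      v.2 ≤ v'.2 + θ v' * (v.1 - v'.1)) : W.card ≤ 2 * (Γ.card - k) - 1 := by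
  classical
  have h := count_vertices hk (I := Unit) (J := Empty) (fun _ => FlR W θ) (fun j => j.elim)
    (fun _ => FlR_rise Γ W θ) (fun j => j.elim) (fun l l' p => p ∈ W ∧ SBtw l l' (θ p)) ?_
  · have e : {p | ∃ l l', Passes Γ k l l' p ∧ p ∈ W ∧ SBtw l l' (θ p)} = (W : Set (ℝ × ℝ)) := by
      ext p
      constructor
      · rintro ⟨l, l', -, h, -⟩; exact h
      · intro hp
        obtain ⟨l, l', h1, h2⟩ := hW p hp
        exact ⟨l, l', h1, hp, h2⟩
    rw [e, Set.ncard_coe_finset] at h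
    simpa using h
  · intro u w p _ _ hs hu hw hP x x' hx hx'
    have hpW : p ∈ W := by rcases hP with h | h <;> exact h.1
    obtain ⟨h1, h2⟩ := SBtw.elim hs (hP.imp (fun h => h.2) (fun h => h.2))
    refine Or.inl ⟨(), ?_, p, hpW, hx', hw.le, ?_⟩
    · rintro ⟨v, hv, h3, h4, h5⟩
      have h6 : θ v < u.1 := by
        by_contra hc
        push Not at hc
        unfold ev at h4 h5
        nlinarith
      rcases hθ v hv p hpW with h7 | h7
      · have : v.2 + θ v * (p.1 - v.1) < ev u p.1 := by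
          unfold ev at h5 ⊢
          nlinarith
        linarith
      · have : p.2 + θ p * (v.1 - p.1) < ev u v.1 := by
          have h8 : 0 < (θ p - u.1) * (p.1 - v.1) := mul_pos (by linarith) (by linarith)
          unfold ev at hu ⊢
          nlinarith
        linarith
    · have h8 : 0 < (w.1 - θ p) * (x' - p.1) := mul_pos (by linarith) (by linarith)
      unfold ev at hw ⊢
      nlinarith

theorem flags' {Γ : Finset (ℝ × ℝ)} {k : ℕ} (hk : k < Γ.card) (W : Finset (ℝ × ℝ))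
    (θ : ℝ × ℝ → ℝ) (hW : ∀ v ∈ W, ∃ l l', Passes Γ k l l' v ∧ SBtw l l' (θ v))
    (hθ : ∀ v ∈ W, ∀ v' ∈ W, v.2 + θ v * (v'.1 - v.1) ≤ v'.2 ∨
      v'.2 + θ v' * (v.1 - v'.1) ≤ v.2) : W.card ≤ 2 * k + 1 := by
  classical
  have h := count_vertices hk (I := Empty) (J := Unit) (fun j => j.elim) (fun _ => FlF W θ)
    (fun j => j.elim) (fun _ => FlF_fall Γ W θ) (fun l l' p => p ∈ W ∧ SBtw l l' (θ p)) ?_
  · have e : {p | ∃ l l', Passes Γ k l l' p ∧ p ∈ W ∧ SBtw l l' (θ p)} = (W : Set (ℝ × ℝ)) := by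
      ext p
      constructor
      · rintro ⟨l, l', -, h, -⟩; exact h
      · intro hp
        obtain ⟨l, l', h1, h2⟩ := hW p hp
        exact ⟨l, l', h1, hp, h2⟩
    rw [e, Set.ncard_coe_finset] at h
    simpa using h
  · intro u w p _ _ hs hu hw hP x x' hx hx'
    have hpW : p ∈ W := by rcases hP with h | h <;> exact h.1
    obtain ⟨h1, h2⟩ := SBtw.elim hs (hP.imp (fun h => h.2) (fun h => h.2))
    refine Or.inr ⟨(), ⟨p, hpW, hx, hw.ge, ?_⟩, ?_⟩
    · have h8 : 0 < (w.1 - θ p) * (p.1 - x) := mul_pos (by linarith) (by linarith)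
      unfold ev at hw ⊢
      nlinarith
    · rintro ⟨v, hv, h3, h4, h5⟩
      have h6 : θ v < u.1 := by
        by_contra hc
        push Not at hc
        unfold ev at h4 h5
        nlinarith
      rcases hθ v hv p hpW with h7 | h7
      · have : ev u p.1 < v.2 + θ v * (p.1 - v.1) := by
          unfold ev at h5 ⊢
          nlinarith
        linarith
      · have : ev u v.1 < p.2 + θ p * (v.1 - p.1) := by
          have h8 : 0 < (θ p - u.1) * (v.1 - p.1) := mul_pos (by linarith) (by linarith)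
          unfold ev at hu ⊢
          nlinarith
        linarith

/-! ### Unions -/

/-- Lines supporting `s` sets, lines through `t` points, and `r` parallel classes. -/
theorem union_all {Γ : Finset (ℝ × ℝ)} {k : ℕ} (hk : k < Γ.card) {s t r : ℕ}
    (K : Fin s → Set (ℝ × ℝ)) (c : Fin t → ℝ × ℝ) (σ : Fin r → ℝ)
    (hΓ : ∀ l ∈ Γ, (∃ i, Supports (K i) l) ∨ (∃ i, ev l (c i).1 = (c i).2) ∨ ∃ i, l.1 = σ i) :
    psi Γ k ≤ 4 * s * Γ.card + (2 * t + r) * (2 * min (k + 1) (Γ.card - k) - 1) := by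
  classical
  have h1 : ∀ i, ∃ f : ℝ → ℝ, ConvexOn ℝ Set.univ f ∧ ∀ l ∈ Γ,
      ((∃ q ∈ K i, ev l q.1 = q.2) ∧ ∀ q ∈ K i, q.2 ≤ ev l q.1) → l.2 = f l.1 := by
    intro i
    obtain ⟨f, hf, h⟩ := exists_convex (Γ.filter fun l => (∃ q ∈ K i, ev l q.1 = q.2) ∧
      ∀ q ∈ K i, q.2 ≤ ev l q.1) (K i) (fun l hl => (Finset.mem_filter.1 hl).2)
    exact ⟨f, hf, fun l hl hl' => h l (Finset.mem_filter.2 ⟨hl, hl'⟩)⟩
  have h2 : ∀ i, ∃ g : ℝ → ℝ, ConcaveOn ℝ Set.univ g ∧ ∀ l ∈ Γ,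
      ((∃ q ∈ K i, ev l q.1 = q.2) ∧ ∀ q ∈ K i, ev l q.1 ≤ q.2) → l.2 = g l.1 := by
    intro i
    obtain ⟨f, hf, h⟩ := exists_concave (Γ.filter fun l => (∃ q ∈ K i, ev l q.1 = q.2) ∧
      ∀ q ∈ K i, ev l q.1 ≤ q.2) (K i) (fun l hl => (Finset.mem_filter.1 hl).2)
    exact ⟨f, hf, fun l hl hl' => h l (Finset.mem_filter.2 ⟨hl, hl'⟩)⟩
  choose f hf hf' using h1
  choose g hg hg' using h2
  have haff : ∀ c : ℝ × ℝ, ConvexOn ℝ Set.univ (fun a : ℝ => c.2 - a * c.1) ∧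
      ConcaveOn ℝ Set.univ (fun a : ℝ => c.2 - a * c.1) := by
    intro c
    constructor
    · refine ⟨convex_univ, ?_⟩
      intro x _ y _ a b _ _ hab
      simp only [smul_eq_mul]
      have : b = 1 - a := by linarith
      subst this
      apply le_of_eq
      ring
    · refine ⟨convex_univ, ?_⟩
      intro x _ y _ a b _ _ hab
      simp only [smul_eq_mul]
      have : b = 1 - a := by linarith
      subst this
      apply le_of_eq
      ring
  have e : 2 * (Γ.card - k) - 1 + (2 * k + 1) = 2 * Γ.card := by omega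
  rcases le_total (Γ.card - k) (k + 1) with hM | hM
  · have h3 := union_bound hk (Fin.append f fun i a => (c i).2 - a * (c i).1) g σ ?_ hg ?_
    · rw [min_eq_right hM] at h3 ⊢
      refine h3.trans (le_of_eq ?_)
      have e2 : 2 * s * (2 * (Γ.card - k) - 1) + 2 * s * (2 * k + 1) = 4 * s * Γ.card := by
        rw [← Nat.mul_add, e]; ring
      rw [← e2]
      ring
    · intro i
      refine Fin.addCases (fun i => ?_) (fun i => ?_) i
      · rw [Fin.append_left]; exact hf i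
      · rw [Fin.append_right]; exact (haff (c i)).1
    · intro l hl
      rcases hΓ l hl with ⟨i, h4, h5 | h5⟩ | ⟨i, hi⟩ | h
      · exact Or.inl ⟨Fin.castAdd t i, by rw [Fin.append_left]; exact hf' i l hl ⟨h4, h5⟩⟩
      · exact Or.inr (Or.inl ⟨i, hg' i l hl ⟨h4, h5⟩⟩)
      · refine Or.inl ⟨Fin.natAdd s i, ?_⟩
        rw [Fin.append_right]
        unfold ev at hi
        linarith
      · exact Or.inr (Or.inr h)
  · have h3 := union_bound hk f (Fin.append g fun i a => (c i).2 - a * (c i).1) σ hf ?_ ?_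
    · rw [min_eq_left hM] at h3 ⊢
      refine h3.trans (le_of_eq ?_)
      have e2 : 2 * s * (2 * (Γ.card - k) - 1) + 2 * s * (2 * k + 1) = 4 * s * Γ.card := by
        rw [← Nat.mul_add, e]; ring
      have e3 : 2 * (k + 1) - 1 = 2 * k + 1 := by omega
      rw [← e2, e3]
      ring
    · intro i
      refine Fin.addCases (fun i => ?_) (fun i => ?_) i
      · rw [Fin.append_left]; exact hg i
      · rw [Fin.append_right]; exact (haff (c i)).2
    · intro l hl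
      rcases hΓ l hl with ⟨i, h4, h5 | h5⟩ | ⟨i, hi⟩ | h
      · exact Or.inl ⟨i, hf' i l hl ⟨h4, h5⟩⟩
      · exact Or.inr (Or.inl ⟨Fin.castAdd t i, by rw [Fin.append_left]; exact hg' i l hl ⟨h4, h5⟩⟩)
      · refine Or.inr (Or.inl ⟨Fin.natAdd s i, ?_⟩)
        rw [Fin.append_right]
        unfold ev at hi
        linarith
      · exact Or.inr (Or.inr h)

/-! ### Exact asymptotics for convex families -/

/-- `eConv s k n`: the maximum complexity of the `k`-level over all sets of `n` lines `(a, b)`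
(that is `y = a x + b`) which satisfy `b = f_i a` for one of `s` convex functions `f_i` on `ℝ`. -/
noncomputable def eConv (s k n : ℕ) : ℕ :=
  sSup {m | ∃ Γ : Finset (ℝ × ℝ), Γ.card = n ∧ (∃ f : Fin s → ℝ → ℝ,
    (∀ i, ConvexOn ℝ Set.univ (f i)) ∧ ∀ l ∈ Γ, ∃ i, l.2 = f i l.1) ∧ psi Γ k = m}

theorem eConv_le (s k n : ℕ) (hk : k < n) : eConv s k n ≤ (2 * s - 1) * (2 * (n - k) - 1) := by
  unfold eConv
  rcases Set.eq_empty_or_nonempty {m | ∃ Γ : Finset (ℝ × ℝ), Γ.card = n ∧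
    (∃ f : Fin s → ℝ → ℝ, (∀ i, ConvexOn ℝ Set.univ (f i)) ∧ ∀ l ∈ Γ, ∃ i, l.2 = f i l.1) ∧
    psi Γ k = m} with h | h
  · rw [h]; simp
  · refine csSup_le h ?_
    rintro m ⟨Γ, h1, ⟨f, hf, h2⟩, rfl⟩
    have h3 := convex_bound (Γ := Γ) (k := k) (by omega) f hf h2
    rw [h1] at h3
    exact h3

theorem le_eConv (s k n : ℕ) (hs : 1 ≤ s) (hk : k < n) (ε : ℝ) (hε : 0 < ε) (hε1 : ε ≤ 1)
    (h : (2 * (s : ℝ) / ε) ^ (60 * Nat.log 2 (2 * s)) ≤ (min (k + 1) (n - k) : ℕ)) :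
    (1 - ε) * (((2 * s - 1) * (2 * min (k + 1) (n - k) - 1) : ℕ) : ℝ) ≤ eConv s k n := by
  obtain ⟨Γ, h1, h2, h3⟩ := Pool.Agent.KLS.lower_bound (2 * s) (by omega) ε hε hε1 n k hk
    (by rw [Nat.cast_mul, Nat.cast_ofNat]; exact h)
  obtain ⟨Γ', f, h4, h5, h6, h7⟩ := to_convex s k Γ h2
  have hbd : BddAbove {m | ∃ Γ : Finset (ℝ × ℝ), Γ.card = n ∧ (∃ f : Fin s → ℝ → ℝ,
    (∀ i, ConvexOn ℝ Set.univ (f i)) ∧ ∀ l ∈ Γ, ∃ i, l.2 = f i l.1) ∧ psi Γ k = m} := by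
    refine ⟨n * n, ?_⟩
    rintro m ⟨Γ', h1, -, rfl⟩
    rw [← h1]
    exact psi_le Γ' k
  have h8 : psi Γ' k ≤ eConv s k n := le_csSup hbd ⟨Γ', h4.trans h1, ⟨f, h5, h6⟩, rfl⟩
  have h9 : (psi Γ k : ℝ) ≤ eConv s k n := by exact_mod_cast h7.trans h8
  refine le_trans ?_ (h3.trans h9)
  refine mul_le_mul_of_nonneg_left ?_ (by linarith)
  have h10 : (2 * s - 1) * (2 * min (k + 1) (n - k) - 1) ≤
      (2 * s - 1) * (2 * min (k + 1) (n - k)) := Nat.mul_le_mul_left _ (Nat.sub_le _ _)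
  have h11 : (((2 * s - 1) * (2 * min (k + 1) (n - k) - 1) : ℕ) : ℝ) ≤
      (((2 * s - 1) * (2 * min (k + 1) (n - k)) : ℕ) : ℝ) := by exact_mod_cast h10
  refine h11.trans (le_of_eq ?_)
  rw [Nat.cast_mul, Nat.cast_sub (by omega), Nat.cast_mul]
  push_cast
  ring

end Pool.Agent.KLC
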