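import Pool.Agent.KLC.Upper

/-!
# Lines supporting plane sets
-/

namespace Pool.Agent.KLC

open Finset Pool.Agent.KL Pool.Agent.KLS

/-- The line `l` supports the set `K`: it meets `K`, and `K` lies (weakly) on one side of it. -/
def Supports (K : Set (ℝ × ℝ)) (l : ℝ × ℝ) : Prop :=
  (∃ q ∈ K, ev l q.1 = q.2) ∧ ((∀ q ∈ K, q.2 ≤ ev l q.1) ∨ ∀ q ∈ K, ev l q.1 ≤ q.2)

theorem exists_convex (A : Finset (ℝ × ℝ)) (K : Set (ℝ × ℝ))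
    (hA : ∀ l ∈ A, (∃ q ∈ K, ev l q.1 = q.2) ∧ ∀ q ∈ K, q.2 ≤ ev l q.1) :
    ∃ f : ℝ → ℝ, ConvexOn ℝ Set.univ f ∧ ∀ l ∈ A, l.2 = f l.1 := by
  classical
  rcases A.eq_empty_or_nonempty with rfl | hne
  · exact ⟨fun _ => 0, convexOn_const 0 convex_univ, by simp⟩
  have hA1 : ∀ l ∈ A, ∃ q ∈ K, ev l q.1 = q.2 := fun l hl => (hA l hl).1
  choose! q hq1 hq2 using hA1
  refine ⟨A.sup' hne fun l => fun a => (q l).2 - a * (q l).1, ?_, ?_⟩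
  · refine Finset.sup'_induction hne _ (p := fun f => ConvexOn ℝ Set.univ f)
      (fun f hf g hg => hf.sup hg) ?_
    intro l _
    refine ⟨convex_univ, ?_⟩
    intro x _ y _ a b _ _ hab
    simp only [smul_eq_mul]
    have : b = 1 - a := by linarith
    subst this
    apply le_of_eq
    ring
  · intro l hl
    rw [Finset.sup'_apply]
    apply le_antisymm
    · refine le_trans ?_ (Finset.le_sup' (fun i => (q i).2 - l.1 * (q i).1) hl)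
      have := hq2 l hl
      unfold ev at this
      linarith
    · refine Finset.sup'_le _ _ ?_
      intro i hi
      have := (hA l hl).2 (q i) (hq1 i hi)
      unfold ev at this
      linarith

theorem exists_concave (A : Finset (ℝ × ℝ)) (K : Set (ℝ × ℝ))
    (hA : ∀ l ∈ A, (∃ q ∈ K, ev l q.1 = q.2) ∧ ∀ q ∈ K, ev l q.1 ≤ q.2) :
    ∃ g : ℝ → ℝ, ConcaveOn ℝ Set.univ g ∧ ∀ l ∈ A, l.2 = g l.1 := by
  classical
  have hA' : ∀ l' ∈ A.image rfl', (∃ q ∈ {q : ℝ × ℝ | (- q.1, - q.2) ∈ K}, ev l' q.1 = q.2) ∧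
      ∀ q ∈ {q : ℝ × ℝ | (- q.1, - q.2) ∈ K}, q.2 ≤ ev l' q.1 := by
    intro l' hl'
    obtain ⟨l, hl, rfl⟩ := Finset.mem_image.1 hl'
    obtain ⟨⟨q, hq, hq1⟩, h2⟩ := hA l hl
    refine ⟨⟨(- q.1, - q.2), by simpa using hq, ?_⟩, ?_⟩
    · rw [ev_rfl', hq1]
    · intro q' hq'
      have h3 := h2 _ hq'
      have h4 := ev_rfl' l (- q'.1)
      rw [neg_neg] at h4
      rw [h4]
      simp only at h3
      linarith
  obtain ⟨f, hf, h⟩ := exists_convex (A.image rfl') {q | (- q.1, - q.2) ∈ K} hA'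
  refine ⟨fun a => - f a, hf.neg, ?_⟩
  intro l hl
  have h1 := h (rfl' l) (Finset.mem_image_of_mem _ hl)
  unfold rfl' at h1
  simp only at h1
  linarith

/-- Lines supporting one set: the vertices at which a line supporting `K` passes between the two
lines of the level (in particular all vertices on lines of `Γ` supporting `K`). -/
theorem support_one {Γ : Finset (ℝ × ℝ)} {k : ℕ} (hk : k < Γ.card) (K : Set (ℝ × ℝ)) :
    {p | ∃ l l', Passes Γ k l l' p ∧ ∃ g, Supports K g ∧ ev g p.1 = p.2 ∧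
      min l.1 l'.1 ≤ g.1 ∧ g.1 ≤ max l.1 l'.1}.ncard ≤ 8 * Γ.card := by
  classical
  set W1 := {p | ∃ l l', Passes Γ k l l' p ∧ ∃ g, ((∃ q ∈ K, ev g q.1 = q.2) ∧
    ∀ q ∈ K, q.2 ≤ ev g q.1) ∧ ev g p.1 = p.2 ∧ min l.1 l'.1 ≤ g.1 ∧ g.1 ≤ max l.1 l'.1} with hW1
  set W2 := {p | ∃ l l', Passes Γ k l l' p ∧ ∃ g, ((∃ q ∈ K, ev g q.1 = q.2) ∧
    ∀ q ∈ K, ev g q.1 ≤ q.2) ∧ ev g p.1 = p.2 ∧ min l.1 l'.1 ≤ g.1 ∧ g.1 ≤ max l.1 l'.1} with hW2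
  have hf1 : W1.Finite := (vertex_finite Γ k).subset
    fun p ⟨l, l', h, _⟩ => isVertex_iff.2 ⟨l, l', h⟩
  have hf2 : W2.Finite := (vertex_finite Γ k).subset
    fun p ⟨l, l', h, _⟩ => isVertex_iff.2 ⟨l, l', h⟩
  have h1 : W1.ncard ≤ 4 * (2 * (Γ.card - k) - 1) := by
    have hg : ∀ p ∈ W1, ∃ g, ((∃ q ∈ K, ev g q.1 = q.2) ∧ ∀ q ∈ K, q.2 ≤ ev g q.1) ∧
        ev g p.1 = p.2 ∧ ∃ l l', Passes Γ k l l' p ∧ min l.1 l'.1 ≤ g.1 ∧ g.1 ≤ max l.1 l'.1 := by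
      rintro p ⟨l, l', h, g, h2, h3, h4, h5⟩
      exact ⟨g, h2, h3, l, l', h, h4, h5⟩
    choose! g g1 g2 g3 using hg
    obtain ⟨f, hf, hfA⟩ := exists_convex (hf1.toFinset.image g) K (by
      intro l hl
      obtain ⟨p, hp, rfl⟩ := Finset.mem_image.1 hl
      exact g1 p (hf1.mem_toFinset.1 hp))
    refine (Set.ncard_le_ncard ?_ ?_).trans (conv_sep hk hf)
    · intro p hp
      obtain ⟨l, l', h, h4, h5⟩ := g3 p hp
      refine ⟨l, l', h, (g p).1, h4, h5, ?_⟩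
      rw [← hfA (g p) (Finset.mem_image_of_mem _ (hf1.mem_toFinset.2 hp))]
      have := g2 p hp
      unfold ev at this
      linarith
    · exact (vertex_finite Γ k).subset fun p ⟨l, l', h, _⟩ => isVertex_iff.2 ⟨l, l', h⟩
  have h2 : W2.ncard ≤ 4 * (2 * k + 1) := by
    have hg : ∀ p ∈ W2, ∃ g, ((∃ q ∈ K, ev g q.1 = q.2) ∧ ∀ q ∈ K, ev g q.1 ≤ q.2) ∧
        ev g p.1 = p.2 ∧ ∃ l l', Passes Γ k l l' p ∧ min l.1 l'.1 ≤ g.1 ∧ g.1 ≤ max l.1 l'.1 := by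
      rintro p ⟨l, l', h, g, h2, h3, h4, h5⟩
      exact ⟨g, h2, h3, l, l', h, h4, h5⟩
    choose! g g1 g2 g3 using hg
    obtain ⟨f, hf, hfA⟩ := exists_concave (hf2.toFinset.image g) K (by
      intro l hl
      obtain ⟨p, hp, rfl⟩ := Finset.mem_image.1 hl
      exact g1 p (hf2.mem_toFinset.1 hp))
    refine (Set.ncard_le_ncard ?_ ?_).trans (conc_sep hk hf)
    · intro p hp
      obtain ⟨l, l', h, h4, h5⟩ := g3 p hp
      refine ⟨l, l', h, (g p).1, h4, h5, ?_⟩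
      rw [← hfA (g p) (Finset.mem_image_of_mem _ (hf2.mem_toFinset.2 hp))]
      have := g2 p hp
      unfold ev at this
      linarith
    · exact (vertex_finite Γ k).subset fun p ⟨l, l', h, _⟩ => isVertex_iff.2 ⟨l, l', h⟩
  have h3 : {p | ∃ l l', Passes Γ k l l' p ∧ ∃ g, Supports K g ∧ ev g p.1 = p.2 ∧
      min l.1 l'.1 ≤ g.1 ∧ g.1 ≤ max l.1 l'.1} ⊆ W1 ∪ W2 := by
    rintro p ⟨l, l', h, g, ⟨h2, h3 | h3⟩, h4, h5, h6⟩
    · exact Or.inl ⟨l, l', h, g, ⟨h2, h3⟩, h4, h5, h6⟩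
    · exact Or.inr ⟨l, l', h, g, ⟨h2, h3⟩, h4, h5, h6⟩
  have h4 := Set.ncard_le_ncard h3 (hf1.union hf2)
  have h5 := Set.ncard_union_le W1 W2
  omega

/-- Lines supporting `s` sets. -/
theorem support_union {Γ : Finset (ℝ × ℝ)} {k : ℕ} (hk : k < Γ.card) {s : ℕ}
    (K : Fin s → Set (ℝ × ℝ)) (hΓ : ∀ l ∈ Γ, ∃ i, Supports (K i) l) :
    psi Γ k ≤ 4 * s * Γ.card := by
  classical
  have h1 : ∀ i, ∃ f : ℝ → ℝ, ConvexOn ℝ Set.univ f ∧ ∀ l ∈ Γ,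
      ((∃ q ∈ K i, ev l q.1 = q.2) ∧ ∀ q ∈ K i, q.2 ≤ ev l q.1) → l.2 = f l.1 := by
    intro i
    obtain ⟨f, hf, h⟩ := exists_convex (Γ.filter fun l => (∃ q ∈ K i, ev l q.1 = q.2) ∧
      ∀ q ∈ K i, q.2 ≤ ev l q.1) (K i) (fun l hl => (Finset.mem_filter.1 hl).2)
    exact ⟨f, hf, fun l hl hl' => h l (Finset.mem_filter.2 ⟨hl, hl'⟩)⟩
  have h2 : ∀ i, ∃ g : ℝ → ℝ, ConcaveOn ℝ Set.univ g ∧ ∀ l ∈ Γ,
      ((∃ q ∈ K i, ev l q.1 = q.2) ∧ ∀ q ∈ K i, ev l q.1 ≤ q.2) → l.2 = g l.1 := by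
    intro i
    obtain ⟨f, hf, h⟩ := exists_concave (Γ.filter fun l => (∃ q ∈ K i, ev l q.1 = q.2) ∧
      ∀ q ∈ K i, ev l q.1 ≤ q.2) (K i) (fun l hl => (Finset.mem_filter.1 hl).2)
    exact ⟨f, hf, fun l hl hl' => h l (Finset.mem_filter.2 ⟨hl, hl'⟩)⟩
  choose f hf hf' using h1
  choose g hg hg' using h2
  have h3 := union_bound hk f g (Fin.elim0 : Fin 0 → ℝ) hf hg ?_
  · refine h3.trans ?_
    have e : 2 * (Γ.card - k) - 1 + (2 * k + 1) = 2 * Γ.card := by omega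
    have e2 : 2 * s * (2 * (Γ.card - k) - 1) + 2 * s * (2 * k + 1) = 4 * s * Γ.card := by
      rw [← Nat.mul_add, e]; ring
    omega
  · intro l hl
    obtain ⟨i, h4, h5 | h5⟩ := hΓ l hl
    · exact Or.inl ⟨i, hf' i l hl ⟨h4, h5⟩⟩
    · exact Or.inr (Or.inl ⟨i, hg' i l hl ⟨h4, h5⟩⟩)

end Pool.Agent.KLC
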