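import Pool.Agent.KLS.Upper

/-!
# Generalised Lovász lemma, abstract form

A *status* is a property `S l x` of a line `l` of `Γ` and an abscissa `x` which is monotone in the
slope for lines through a common point, and monotone in `x` along a fixed line (`Rise`: it may only
become true, `Fall`: it may only become false). The number of vertices of the level which are
*separated* by a rising (falling) status is at most `n - m` (at most `m`).
-/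

namespace Pool.Agent.KLC

open Finset Pool.Agent.KL Pool.Agent.KLS

variable {Γ : Finset (ℝ × ℝ)}

/-- rising status -/
structure Rise (Γ : Finset (ℝ × ℝ)) (S : ℝ × ℝ → ℝ → Prop) : Prop where
  time : ∀ l ∈ Γ, ∀ x x', x < x' → S l x → S l x'
  slope : ∀ u ∈ Γ, ∀ w ∈ Γ, u.1 < w.1 → ∀ x, ev u x = ev w x → S u x → S w x

/-- falling status -/
structure Fall (Γ : Finset (ℝ × ℝ)) (S : ℝ × ℝ → ℝ → Prop) : Prop where
  time : ∀ l ∈ Γ, ∀ x x', x < x' → S l x' → S l x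
  slope : ∀ u ∈ Γ, ∀ w ∈ Γ, u.1 < w.1 → ∀ x, ev u x = ev w x → S u x → S w x

/-- two lines that change their order between `x` and `x'` cross there -/
theorem cross {u w : ℝ × ℝ} {x x' : ℝ} (hxx : x < x') (h1 : ev w x < ev u x)
    (h2 : ev u x' < ev w x') : u.1 < w.1 ∧ ∃ x0, x < x0 ∧ x0 < x' ∧ ev u x0 = ev w x0 := by
  have hs : u.1 < w.1 := by
    unfold ev at h1 h2
    by_contra hc
    push Not at hc
    nlinarith
  refine ⟨hs, (u.2 - w.2) / (w.1 - u.1), ?_, ?_, ?_⟩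
  · rw [lt_div_iff₀ (by linarith)]
    unfold ev at h1; linarith
  · rw [div_lt_iff₀ (by linarith)]
    unfold ev at h2; linarith
  · unfold ev
    have : w.1 - u.1 ≠ 0 := by linarith
    field_simp
    ring

theorem Rise.back {S : ℝ × ℝ → ℝ → Prop} (hS : Rise Γ S) {u w : ℝ × ℝ} (hu : u ∈ Γ) (hw : w ∈ Γ)
    {x x' : ℝ} (hxx : x < x') (h1 : ev w x < ev u x) (h2 : ev u x' < ev w x')
    (h : S u x) : S w x' := by
  obtain ⟨hs, x0, h3, h4, h5⟩ := cross hxx h1 h2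
  exact hS.time w hw _ _ h4 (hS.slope u hu w hw hs x0 h5 (hS.time u hu _ _ h3 h))

theorem Fall.back {S : ℝ × ℝ → ℝ → Prop} (hS : Fall Γ S) {u w : ℝ × ℝ} (hu : u ∈ Γ) (hw : w ∈ Γ)
    {x x' : ℝ} (hxx : x < x') (h1 : ev w x < ev u x) (h2 : ev u x' < ev w x')
    (h : S u x') : S w x := by
  obtain ⟨hs, x0, h3, h4, h5⟩ := cross hxx h1 h2
  exact hS.time w hw _ _ h3 (hS.slope u hu w hw hs x0 h5 (hS.time u hu _ _ h4 h))

section
open Classical

/-- the lines above the cut that do not have the status -/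
noncomputable def Up (Γ : Finset (ℝ × ℝ)) (m : ℕ) (S : ℝ × ℝ → ℝ → Prop) (x : ℝ) :
    Finset (ℝ × ℝ) := Γ.filter fun l => l ∉ Low Γ m x ∧ ¬ S l x

/-- the lines below the cut that have the status -/
noncomputable def Dn (Γ : Finset (ℝ × ℝ)) (m : ℕ) (S : ℝ × ℝ → ℝ → Prop) (x : ℝ) :
    Finset (ℝ × ℝ) := Γ.filter fun l => l ∈ Low Γ m x ∧ S l x

theorem sdiff_card {m : ℕ} {x x' : ℝ} (hx : Gen Γ x) (hx' : Gen Γ x') (hm : m ≤ Γ.card) :
    (Low Γ m x \ Low Γ m x').card = (Low Γ m x' \ Low Γ m x).card := by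
  have h1 := Finset.card_sdiff_add_card_inter (Low Γ m x) (Low Γ m x')
  have h2 := Finset.card_sdiff_add_card_inter (Low Γ m x') (Low Γ m x)
  rw [Finset.inter_comm] at h2
  rw [Low_card hx hm] at h1
  rw [Low_card hx' hm] at h2
  omega

theorem Low_sub {m : ℕ} {x : ℝ} : Low Γ m x ⊆ Γ := fun _ hl => (mem_Low.1 hl).1

/-- the exchange argument -/
theorem exchange {A A' L L' G : Finset (ℝ × ℝ)} (hc : (L \ L').card = (L' \ L).card)
    (_hAG : A ⊆ G) (h1 : A' ∩ L ⊆ L \ L') (h3 : A' \ L ⊆ A \ L')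
    (h4 : (A' ∩ L).Nonempty → L' \ L ⊆ A ∩ L') :
    A'.card ≤ A.card ∧ (∀ u w, u ∈ L' → u ∉ L → w ∈ L → w ∉ L' → u ∈ A → w ∉ A' →
      A'.card < A.card) := by
  have e1 : A'.card = (A' ∩ L).card + (A' \ L).card := by
    rw [add_comm, Finset.card_sdiff_add_card_inter]
  have e2 : A.card = (A ∩ L').card + (A \ L').card := by
    rw [add_comm, Finset.card_sdiff_add_card_inter]
  have h5 := Finset.card_le_card h3
  rcases Finset.eq_empty_or_nonempty (A' ∩ L) with h | h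
  · rw [h, Finset.card_empty] at e1
    refine ⟨by omega, ?_⟩
    intro u w hu hu' hw hw' huA _
    have h6 : 0 < (A ∩ L').card := Finset.card_pos.2 ⟨u, Finset.mem_inter.2 ⟨huA, hu⟩⟩
    omega
  · have h6 := Finset.card_le_card (h4 h)
    have h7 := Finset.card_le_card h1
    refine ⟨by omega, ?_⟩
    intro u w hu hu' hw hw' huA hwA
    have h8 : (A' ∩ L).card < (L \ L').card := by
      refine Finset.card_lt_card ((Finset.ssubset_iff_of_subset h1).2 ⟨w, ?_, ?_⟩)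
      · rw [Finset.mem_sdiff]; exact ⟨hw, hw'⟩
      · rw [Finset.mem_inter]; exact fun h => hwA h.1
    omega

theorem Up_anti {S : ℝ × ℝ → ℝ → Prop} (hS : Rise Γ S) {m : ℕ} {x x' : ℝ} (hx : Gen Γ x)
    (hx' : Gen Γ x') (hm : m ≤ Γ.card) (hxx : x < x') :
    (Up Γ m S x').card ≤ (Up Γ m S x).card ∧
    (∀ u w, u ∈ Low Γ m x' → u ∉ Low Γ m x → w ∈ Low Γ m x → w ∉ Low Γ m x' → ¬ S u x →
      S w x' → (Up Γ m S x').card < (Up Γ m S x).card) := by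
  have key := exchange (A := Up Γ m S x) (A' := Up Γ m S x') (L := Low Γ m x) (L' := Low Γ m x')
    (G := Γ) (sdiff_card hx hx' hm) (Finset.filter_subset _ _) ?_ ?_ ?_
  · refine ⟨key.1, fun u w h1 h2 h3 h4 h5 h6 => key.2 u w h1 h2 h3 h4 ?_ ?_⟩
    · exact Finset.mem_filter.2 ⟨Low_sub h1, h2, h5⟩
    · intro h; exact (Finset.mem_filter.1 h).2.2 h6
  · intro l hl
    rw [Finset.mem_inter] at hl
    rw [Finset.mem_sdiff]
    exact ⟨hl.2, (Finset.mem_filter.1 hl.1).2.1⟩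
  · intro l hl
    rw [Finset.mem_sdiff] at hl
    obtain ⟨h1, h2, h3⟩ := Finset.mem_filter.1 hl.1
    rw [Finset.mem_sdiff]
    exact ⟨Finset.mem_filter.2 ⟨h1, hl.2, fun h => h3 (hS.time l h1 _ _ hxx h)⟩, h2⟩
  · rintro ⟨w, hw⟩ u hu
    rw [Finset.mem_inter] at hw
    obtain ⟨h1, h2, h3⟩ := Finset.mem_filter.1 hw.1
    rw [Finset.mem_sdiff] at hu
    rw [Finset.mem_inter]
    refine ⟨Finset.mem_filter.2 ⟨Low_sub hu.1, hu.2, fun h => h3 ?_⟩, hu.1⟩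
    exact hS.back (Low_sub hu.1) h1 hxx (Low_lt hw.2 (Low_sub hu.1) hu.2)
      (Low_lt hu.1 h1 h2) h

theorem Dn_anti {S : ℝ × ℝ → ℝ → Prop} (hS : Fall Γ S) {m : ℕ} {x x' : ℝ} (hx : Gen Γ x)
    (hx' : Gen Γ x') (hm : m ≤ Γ.card) (hxx : x < x') :
    (Dn Γ m S x').card ≤ (Dn Γ m S x).card ∧
    (∀ u w, u ∈ Low Γ m x' → u ∉ Low Γ m x → w ∈ Low Γ m x → w ∉ Low Γ m x' → S w x →
      ¬ S u x' → (Dn Γ m S x').card < (Dn Γ m S x).card) := by
  have key := exchange (A := Dn Γ m S x) (A' := Dn Γ m S x') (L := Γ \ Low Γ m x)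
    (L' := Γ \ Low Γ m x') (G := Γ) ?_ (Finset.filter_subset _ _) ?_ ?_ ?_
  · refine ⟨key.1, fun u w h1 h2 h3 h4 h5 h6 => key.2 w u ?_ ?_ ?_ ?_ ?_ ?_⟩
    · rw [Finset.mem_sdiff]; exact ⟨Low_sub h3, h4⟩
    · rw [Finset.mem_sdiff]; exact fun h => h.2 h3
    · rw [Finset.mem_sdiff]; exact ⟨Low_sub h1, h2⟩
    · rw [Finset.mem_sdiff]; exact fun h => h.2 h1
    · exact Finset.mem_filter.2 ⟨Low_sub h3, h3, h5⟩
    · intro h; exact h6 (Finset.mem_filter.1 h).2.2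
  · have e1 : (Γ \ Low Γ m x) \ (Γ \ Low Γ m x') = Low Γ m x' \ Low Γ m x := by
      ext l
      simp only [Finset.mem_sdiff]
      constructor
      · rintro ⟨⟨h1, h2⟩, h3⟩
        refine ⟨?_, h2⟩
        by_contra h4
        exact h3 ⟨h1, h4⟩
      · rintro ⟨h1, h2⟩
        exact ⟨⟨Low_sub h1, h2⟩, fun h => h.2 h1⟩
    have e2 : (Γ \ Low Γ m x') \ (Γ \ Low Γ m x) = Low Γ m x \ Low Γ m x' := by
      ext l
      simp only [Finset.mem_sdiff]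
      constructor
      · rintro ⟨⟨h1, h2⟩, h3⟩
        refine ⟨?_, h2⟩
        by_contra h4
        exact h3 ⟨h1, h4⟩
      · rintro ⟨h1, h2⟩
        exact ⟨⟨Low_sub h1, h2⟩, fun h => h.2 h1⟩
    rw [e1, e2]
    exact (sdiff_card hx hx' hm).symm
  · intro l hl
    rw [Finset.mem_inter, Finset.mem_sdiff] at hl
    rw [Finset.mem_sdiff, Finset.mem_sdiff, Finset.mem_sdiff]
    exact ⟨hl.2, fun h => h.2 (Finset.mem_filter.1 hl.1).2.1⟩
  · intro l hl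
    rw [Finset.mem_sdiff, Finset.mem_sdiff] at hl
    obtain ⟨h1, h2, h3⟩ := Finset.mem_filter.1 hl.1
    rw [Finset.mem_sdiff, Finset.mem_sdiff]
    have h4 : l ∈ Low Γ m x := by
      by_contra h; exact hl.2 ⟨h1, h⟩
    exact ⟨Finset.mem_filter.2 ⟨h1, h4, hS.time l h1 _ _ hxx h3⟩, fun h => h.2 h2⟩
  · rintro ⟨u, hu⟩ w hw
    rw [Finset.mem_inter, Finset.mem_sdiff] at hu
    obtain ⟨h1, h2, h3⟩ := Finset.mem_filter.1 hu.1
    rw [Finset.mem_sdiff, Finset.mem_sdiff, Finset.mem_sdiff] at hw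
    have hwx : w ∈ Low Γ m x := by
      by_contra h; exact hw.2 ⟨hw.1.1, h⟩
    rw [Finset.mem_inter, Finset.mem_sdiff]
    refine ⟨Finset.mem_filter.2 ⟨hw.1.1, hwx, ?_⟩, hw.1⟩
    exact hS.back h1 hw.1.1 hxx (Low_lt hwx h1 hu.2.2) (Low_lt h2 hw.1.1 hw.1.2) h3

/-- at the vertex `p` the cut set changes and the change is separated by the rising status -/
def SepR (Γ : Finset (ℝ × ℝ)) (d : ℝ) (m : ℕ) (S : ℝ × ℝ → ℝ → Prop) (p : ℝ × ℝ) : Prop :=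
  ∃ x x', p.1 - d < x ∧ x < p.1 ∧ p.1 < x' ∧ x' < p.1 + d ∧ Gen Γ x ∧ Gen Γ x' ∧
    ∃ u w, u ∈ Low Γ m x' ∧ u ∉ Low Γ m x ∧ w ∈ Low Γ m x ∧ w ∉ Low Γ m x' ∧ ¬ S u x ∧ S w x'

/-- at the vertex `p` the cut set changes and the change is separated by the falling status -/
def SepF (Γ : Finset (ℝ × ℝ)) (d : ℝ) (m : ℕ) (S : ℝ × ℝ → ℝ → Prop) (p : ℝ × ℝ) : Prop :=
  ∃ x x', p.1 - d < x ∧ x < p.1 ∧ p.1 < x' ∧ x' < p.1 + d ∧ Gen Γ x ∧ Gen Γ x' ∧
    ∃ u w, u ∈ Low Γ m x' ∧ u ∉ Low Γ m x ∧ w ∈ Low Γ m x ∧ w ∉ Low Γ m x' ∧ S w x ∧ ¬ S u x'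

/-- common part of the two counting lemmas -/
theorem count {d : ℝ} (U : ℝ → ℕ) (N : ℕ)
    (hmono : ∀ x x', Gen Γ x → Gen Γ x' → x < x' → U x' ≤ U x)
    (hN : ∀ x, Gen Γ x → U x ≤ N)
    (V : Finset (ℝ × ℝ)) (hV : ∀ p ∈ V, ∀ q ∈ V, p ≠ q → p.1 + 2 * d ≤ q.1 ∨ q.1 + 2 * d ≤ p.1)
    (hD : ∀ p ∈ V, ∃ x x', p.1 - d < x ∧ x < p.1 ∧ p.1 < x' ∧ x' < p.1 + d ∧ Gen Γ x ∧
      Gen Γ x' ∧ U x' < U x) : V.card ≤ N := by
  choose! x x' h1 h2 h3 h4 h5 h6 h7 using hD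
  have key : ∀ p ∈ V, ∀ q ∈ V, p.1 + 2 * d ≤ q.1 → U (x q) < U (x p) := by
    intro p hp q hq hpq
    have h8 : x' p < x q := by linarith [h4 p hp, h1 q hq]
    exact lt_of_le_of_lt (hmono _ _ (h6 p hp) (h5 q hq) h8) (h7 p hp)
  have hinj : Set.InjOn (fun p => U (x p)) (V : Set (ℝ × ℝ)) := by
    intro p hp q hq h
    simp only at h
    by_contra hne
    rcases hV p hp q hq hne with h8 | h8
    · have := key p hp q hq h8; omega
    · have := key q hq p hp h8; omega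
  have hmaps : Set.MapsTo (fun p => U (x p)) (V : Set (ℝ × ℝ)) (Finset.Icc 1 N : Finset ℕ) := by
    intro p hp
    have a1 := hN _ (h5 p hp)
    have a2 := h7 p hp
    simp only [Finset.coe_Icc, Set.mem_Icc]
    omega
  have h8 := Finset.card_le_card_of_injOn _ hmaps hinj
  rw [Nat.card_Icc] at h8
  omega

theorem rise_card {S : ℝ × ℝ → ℝ → Prop} (hS : Rise Γ S) {d : ℝ} {m : ℕ} (hm : m ≤ Γ.card)
    (V : Finset (ℝ × ℝ)) (hV : ∀ p ∈ V, ∀ q ∈ V, p ≠ q → p.1 + 2 * d ≤ q.1 ∨ q.1 + 2 * d ≤ p.1)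
    (hD : ∀ p ∈ V, SepR Γ d m S p) : V.card ≤ Γ.card - m := by
  refine count (Γ := Γ) (fun x => (Up Γ m S x).card) _
    (fun x x' hx hx' hxx => (Up_anti hS hx hx' hm hxx).1) ?_ V hV ?_
  · intro x hx
    have h1 : Up Γ m S x ⊆ Γ \ Low Γ m x := by
      intro l hl
      obtain ⟨h1, h2, -⟩ := Finset.mem_filter.1 hl
      exact Finset.mem_sdiff.2 ⟨h1, h2⟩
    refine (Finset.card_le_card h1).trans ?_
    rw [Finset.card_sdiff_of_subset Low_sub, Low_card hx hm]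
  · intro p hp
    obtain ⟨x, x', h1, h2, h3, h4, h5, h6, u, w, h7, h8, h9, h10, h11, h12⟩ := hD p hp
    exact ⟨x, x', h1, h2, h3, h4, h5, h6,
      (Up_anti hS h5 h6 hm (h2.trans h3)).2 u w h7 h8 h9 h10 h11 h12⟩

theorem fall_card {S : ℝ × ℝ → ℝ → Prop} (hS : Fall Γ S) {d : ℝ} {m : ℕ} (hm : m ≤ Γ.card)
    (V : Finset (ℝ × ℝ)) (hV : ∀ p ∈ V, ∀ q ∈ V, p ≠ q → p.1 + 2 * d ≤ q.1 ∨ q.1 + 2 * d ≤ p.1)
    (hD : ∀ p ∈ V, SepF Γ d m S p) : V.card ≤ m := by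
  refine count (Γ := Γ) (fun x => (Dn Γ m S x).card) _
    (fun x x' hx hx' hxx => (Dn_anti hS hx hx' hm hxx).1) ?_ V hV ?_
  · intro x hx
    have h1 : Dn Γ m S x ⊆ Low Γ m x := by
      intro l hl
      exact (Finset.mem_filter.1 hl).2.1
    refine (Finset.card_le_card h1).trans ?_
    rw [Low_card hx hm]
  · intro p hp
    obtain ⟨x, x', h1, h2, h3, h4, h5, h6, u, w, h7, h8, h9, h10, h11, h12⟩ := hD p hp
    exact ⟨x, x', h1, h2, h3, h4, h5, h6,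
      (Dn_anti hS h5 h6 hm (h2.trans h3)).2 u w h7 h8 h9 h10 h11 h12⟩

end

end Pool.Agent.KLC
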