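import Pool.Agent.KLC.Conv

/-!
# Upper bounds
-/

namespace Pool.Agent.KLC

open Finset Pool.Agent.KL Pool.Agent.KLS

/-- The line `y = a x + f a` passes through `p` for some slope `a` between (inclusively) the
slopes of `l` and `l'`. -/
def Btw (f : ℝ → ℝ) (l l' p : ℝ × ℝ) : Prop :=
  ∃ a, min l.1 l'.1 ≤ a ∧ a ≤ max l.1 l'.1 ∧ f a + a * p.1 = p.2

theorem Btw.elim {f : ℝ → ℝ} {u w p : ℝ × ℝ} (hs : u.1 < w.1) (h : Btw f u w p ∨ Btw f w u p) :
    ∃ b, u.1 ≤ b ∧ b ≤ w.1 ∧ f b + b * p.1 = p.2 := by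
  rcases h with ⟨b, h1, h2, h3⟩ | ⟨b, h1, h2, h3⟩
  · rw [min_eq_left hs.le] at h1
    rw [max_eq_right hs.le] at h2
    exact ⟨b, h1, h2, h3⟩
  · rw [min_eq_right hs.le] at h1
    rw [max_eq_left hs.le] at h2
    exact ⟨b, h1, h2, h3⟩

/-- Generalised Lovász lemma, convex functions. -/
theorem conv_sep {Γ : Finset (ℝ × ℝ)} {k : ℕ} (hk : k < Γ.card) {f : ℝ → ℝ}
    (hf : ConvexOn ℝ Set.univ f) :
    {p | ∃ l l', Passes Γ k l l' p ∧ Btw f l l' p}.ncard ≤ 4 * (2 * (Γ.card - k) - 1) := by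
  refine (count_vertices hk (I := Fin 4) (J := Empty) (fun j => St f j) (fun j => j.elim)
    (fun j => St_rise hf Γ j) (fun j => j.elim) (Btw f) ?_).trans (by simp)
  intro u w p _ _ hs hu hw hB x x' hx hx'
  obtain ⟨b, h1, h2, h3⟩ := Btw.elim hs hB
  exact Or.inl (cls hf hs hu hw h1 h2 h3 hx hx')

/-- Generalised Lovász lemma, concave functions. -/
theorem conc_sep {Γ : Finset (ℝ × ℝ)} {k : ℕ} (hk : k < Γ.card) {g : ℝ → ℝ}
    (hg : ConcaveOn ℝ Set.univ g) :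
    {p | ∃ l l', Passes Γ k l l' p ∧ Btw g l l' p}.ncard ≤ 4 * (2 * k + 1) := by
  refine (count_vertices hk (I := Empty) (J := Fin 4) (fun j => j.elim) (fun j => Sf g j)
    (fun j => j.elim) (fun j => Sf_fall hg Γ j) (Btw g) ?_).trans (by simp)
  intro u w p _ _ hs hu hw hB x x' hx hx'
  obtain ⟨b, h1, h2, h3⟩ := Btw.elim hs hB
  exact Or.inr (cls' hg hs hu hw h1 h2 h3 hx hx')

/-- The constant status `σ ≤ slope`. -/
theorem slope_rise (Γ : Finset (ℝ × ℝ)) (σ : ℝ) : Rise Γ fun l _ => σ ≤ l.1 :=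
  ⟨fun _ _ _ _ _ h => h, fun _ _ _ _ hs _ _ h => h.trans hs.le⟩

theorem slope_fall (Γ : Finset (ℝ × ℝ)) (σ : ℝ) : Fall Γ fun l _ => σ ≤ l.1 :=
  ⟨fun _ _ _ _ _ h => h, fun _ _ _ _ hs _ _ h => h.trans hs.le⟩

/-- Unions of families. -/
theorem union_bound {Γ : Finset (ℝ × ℝ)} {k : ℕ} (hk : k < Γ.card) {p q r : ℕ}
    (f : Fin p → ℝ → ℝ) (g : Fin q → ℝ → ℝ) (σ : Fin r → ℝ)
    (hf : ∀ i, ConvexOn ℝ Set.univ (f i)) (hg : ∀ i, ConcaveOn ℝ Set.univ (g i))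
    (hΓ : ∀ l ∈ Γ, (∃ i, l.2 = f i l.1) ∨ (∃ i, l.2 = g i l.1) ∨ ∃ i, l.1 = σ i) :
    psi Γ k ≤ 2 * p * (2 * (Γ.card - k) - 1) + 2 * q * (2 * k + 1) +
      r * (2 * min (k + 1) (Γ.card - k) - 1) := by
  have hpsi : psi Γ k = {p | ∃ l l', Passes Γ k l l' p ∧ True}.ncard := by
    unfold psi
    congr 1
    ext p
    simp only [Set.mem_ofPred_eq, and_true]
    exact isVertex_iff
  have hc : ∀ u w : ℝ × ℝ, u ∈ Γ → w ∈ Γ → u.1 < w.1 → ∀ x0 y0, ev u x0 = y0 → ev w x0 = y0 →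
      ∀ x x', x < x0 → x0 < x' →
      (∃ i : Fin p × Fin 2, ¬ St (f i.1) (Fin.castLE (by omega) i.2) u x ∧
        St (f i.1) (Fin.castLE (by omega) i.2) w x') ∨
      (∃ i : Fin q × Fin 2, Sf (g i.1) (Fin.castLE (by omega) i.2) w x ∧
        ¬ Sf (g i.1) (Fin.castLE (by omega) i.2) u x') ∨
      ∃ i, ¬ σ i ≤ u.1 ∧ σ i ≤ w.1 := by
    intro u w _ hwΓ hs x0 y0 hu hw x x' hx hx'
    rcases hΓ w hwΓ with ⟨i, hi⟩ | ⟨i, hi⟩ | ⟨i, hi⟩
    · left
      rcases cls_w (hf i) hs hu hw hi hx hx' with h | h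
      · exact ⟨(i, 0), h⟩
      · exact ⟨(i, 1), h⟩
    · right; left
      rcases cls_w' (hg i) hs hu hw hi hx hx' with h | h
      · exact ⟨(i, 0), h⟩
      · exact ⟨(i, 1), h⟩
    · right; right
      exact ⟨i, by rw [← hi]; exact not_le.2 hs, hi.ge⟩
  rw [hpsi]
  rcases le_total (k + 1) (Γ.card - k) with hM | hM
  · rw [min_eq_left hM]
    refine (count_vertices hk (I := Fin p × Fin 2) (J := (Fin q × Fin 2) ⊕ Fin r)
      (fun i => St (f i.1) (Fin.castLE (by omega) i.2))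
      (fun j => Sum.elim (fun i => Sf (g i.1) (Fin.castLE (by omega) i.2))
        (fun i l _ => σ i ≤ l.1) j) (fun i => St_rise (hf i.1) Γ _) ?_ (fun _ _ _ => True)
      ?_).trans ?_
    · rintro (i | i)
      · exact Sf_fall (hg i.1) Γ _
      · exact slope_fall Γ _
    · intro u w p hu hw hs hup hwp _ x x' hx hx'
      rcases hc u w hu hw hs p.1 p.2 hup hwp x x' hx hx' with ⟨i, h⟩ | ⟨i, h⟩ | ⟨i, h⟩
      · exact Or.inl ⟨i, h⟩
      · exact Or.inr ⟨Sum.inl i, h⟩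
      · exact Or.inr ⟨Sum.inr i, h.2, h.1⟩
    · simp only [Fintype.card_prod, Fintype.card_fin, Fintype.card_sum]
      have e : 2 * (k + 1) - 1 = 2 * k + 1 := by omega
      rw [e]
      apply le_of_eq
      ring
  · rw [min_eq_right hM]
    refine (count_vertices hk (I := (Fin p × Fin 2) ⊕ Fin r) (J := Fin q × Fin 2)
      (fun j => Sum.elim (fun i => St (f i.1) (Fin.castLE (by omega) i.2))
        (fun i l _ => σ i ≤ l.1) j) (fun i => Sf (g i.1) (Fin.castLE (by omega) i.2))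
      ?_ (fun i => Sf_fall (hg i.1) Γ _) (fun _ _ _ => True) ?_).trans ?_
    · rintro (i | i)
      · exact St_rise (hf i.1) Γ _
      · exact slope_rise Γ _
    · intro u w p hu hw hs hup hwp _ x x' hx hx'
      rcases hc u w hu hw hs p.1 p.2 hup hwp x x' hx hx' with ⟨i, h⟩ | ⟨i, h⟩ | ⟨i, h⟩
      · exact Or.inl ⟨Sum.inl i, h⟩
      · exact Or.inr ⟨i, h⟩
      · exact Or.inl ⟨Sum.inr i, h⟩
    · simp only [Fintype.card_prod, Fintype.card_fin, Fintype.card_sum]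
      apply le_of_eq
      ring

/-! ### The exact constant for convex families -/

section rank
open Classical

/-- number of statuses a line has -/
noncomputable def rk {s : ℕ} (f : Fin s → ℝ → ℝ) (l : ℝ × ℝ) (x : ℝ) : ℕ :=
  ((Finset.univ : Finset (Fin s × Fin 2)).filter fun i =>
    St (f i.1) (Fin.castLE (by omega) i.2) l x).card

theorem rk_le {s : ℕ} (f : Fin s → ℝ → ℝ) (l : ℝ × ℝ) (x : ℝ) : rk f l x ≤ 2 * s := by
  refine (Finset.card_filter_le _ _).trans ?_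
  rw [Finset.card_univ, Fintype.card_prod, Fintype.card_fin, Fintype.card_fin, mul_comm]

theorem rk_time {s : ℕ} (f : Fin s → ℝ → ℝ) (l : ℝ × ℝ) {x x' : ℝ} (hx : x < x') :
    rk f l x ≤ rk f l x' := by
  refine Finset.card_le_card ?_
  intro i hi
  rw [Finset.mem_filter] at hi ⊢
  exact ⟨hi.1, St_time _ _ _ hx hi.2⟩

theorem rk_slope {s : ℕ} (f : Fin s → ℝ → ℝ) (hf : ∀ i, ConvexOn ℝ Set.univ (f i)) {u w : ℝ × ℝ}
    (hs : u.1 < w.1) {x : ℝ} (hx : ev u x = ev w x) : rk f u x ≤ rk f w x := by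
  refine Finset.card_le_card ?_
  intro i hi
  rw [Finset.mem_filter] at hi ⊢
  exact ⟨hi.1, St_slope (hf _) _ hs hx hi.2⟩

theorem convex_bound {Γ : Finset (ℝ × ℝ)} {k : ℕ} (hk : k < Γ.card) {s : ℕ}
    (f : Fin s → ℝ → ℝ) (hf : ∀ i, ConvexOn ℝ Set.univ (f i))
    (hΓ : ∀ l ∈ Γ, ∃ i, l.2 = f i l.1) :
    psi Γ k ≤ (2 * s - 1) * (2 * (Γ.card - k) - 1) := by
  have hpsi : psi Γ k = {p | ∃ l l', Passes Γ k l l' p ∧ True}.ncard := by
    unfold psi
    congr 1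
    ext p
    simp only [Set.mem_ofPred_eq, and_true]
    exact isVertex_iff
  rw [hpsi]
  refine (count_vertices hk (I := Fin (2 * s - 1)) (J := Empty)
    (fun a l x => (a : ℕ) + 2 ≤ rk f l x) (fun j => j.elim) ?_ (fun j => j.elim)
    (fun _ _ _ => True) ?_).trans (by simp)
  · intro a
    refine ⟨fun l _ x x' hx h => h.trans (rk_time f l hx), ?_⟩
    intro u _ w _ hs x hx h
    exact h.trans (rk_slope f hf hs hx)
  · intro u w p huΓ hwΓ hs hu hw _ x x' hx hx'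
    left
    obtain ⟨i, hi⟩ := hΓ w hwΓ
    obtain ⟨i', hi'⟩ := hΓ u huΓ
    have h1 : 1 ≤ rk f u x := by
      refine Finset.card_pos.2 ⟨(i', 0), ?_⟩
      rw [Finset.mem_filter]
      refine ⟨Finset.mem_univ _, u.1, le_rfl, ?_⟩
      unfold ev
      rw [← hi']
      linarith
    have h2 : rk f u x < rk f w x' := by
      refine Finset.card_lt_card ?_
      rw [Finset.ssubset_iff_of_subset]
      · rcases cls_w (hf i) hs hu hw hi hx hx' with h | h
        · exact ⟨(i, 0), Finset.mem_filter.2 ⟨Finset.mem_univ _, h.2⟩,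
            fun h' => h.1 (Finset.mem_filter.1 h').2⟩
        · exact ⟨(i, 1), Finset.mem_filter.2 ⟨Finset.mem_univ _, h.2⟩,
            fun h' => h.1 (Finset.mem_filter.1 h').2⟩
      · intro i hi
        rw [Finset.mem_filter] at hi ⊢
        exact ⟨hi.1, St_time _ _ _ hx' (St_slope (hf _) _ hs (hu.trans hw.symm)
          (St_time _ _ _ hx hi.2))⟩
    have h3 := rk_le f w x'
    refine ⟨⟨rk f w x' - 2, by omega⟩, ?_, ?_⟩
    · simp only; omega
    · simp only; omega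

end rank

end Pool.Agent.KLC
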