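import Pool.Agent.KLC.Status

/-!
# The vertices of the level, and finite unions of statuses
-/

namespace Pool.Agent.KLC

open Finset Filter Topology Pool.Agent.KL Pool.Agent.KLS

/-- The `k`-level passes at `p` from the line `l` to the line `l'` of `Γ`. -/
def Passes (Γ : Finset (ℝ × ℝ)) (k : ℕ) (l l' p : ℝ × ℝ) : Prop :=
  l ∈ Γ ∧ l' ∈ Γ ∧ l ≠ l' ∧ ev l p.1 = p.2 ∧ ev l' p.1 = p.2 ∧ ∃ δ > 0,
    (∀ x ∈ Set.Icc (p.1 - δ) p.1, (x, ev l x) ∈ kLevel Γ k) ∧
    (∀ x ∈ Set.Icc p.1 (p.1 + δ), (x, ev l' x) ∈ kLevel Γ k)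

theorem isVertex_iff {Γ : Finset (ℝ × ℝ)} {k : ℕ} {p : ℝ × ℝ} :
    IsVertex Γ k p ↔ ∃ l l', Passes Γ k l l' p := by
  constructor
  · rintro ⟨l, hl, l', hl', h⟩
    exact ⟨l, l', hl, hl', h⟩
  · rintro ⟨l, l', hl, hl', h⟩
    exact ⟨l, hl, l', hl', h⟩

/-- the change of the cut set at a vertex -/
structure Swap (Γ : Finset (ℝ × ℝ)) (d : ℝ) (m : ℕ) (p u w : ℝ × ℝ) (x x' : ℝ) : Prop where
  hs : u.1 < w.1
  hu : ev u p.1 = p.2
  hw : ev w p.1 = p.2
  x1 : p.1 - d < x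
  x2 : x < p.1
  x3 : p.1 < x'
  x4 : x' < p.1 + d
  gx : Gen Γ x
  gx' : Gen Γ x'
  u1 : u ∈ Low Γ m x'
  u2 : u ∉ Low Γ m x
  w1 : w ∈ Low Γ m x
  w2 : w ∉ Low Γ m x'

theorem nlt_lt {Γ : Finset (ℝ × ℝ)} {l l' : ℝ × ℝ} (hl' : l' ∈ Γ) {x : ℝ}
    (h : ev l' x < ev l x) : nlt Γ x (ev l' x) < nlt Γ x (ev l x) := by
  classical
  unfold nlt
  refine Finset.card_lt_card ?_
  rw [Finset.ssubset_iff_of_subset]
  · exact ⟨l', by simp [hl', h], by simp⟩
  · intro l'' hl''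
    rw [Finset.mem_filter] at hl'' ⊢
    exact ⟨hl''.1, hl''.2.trans h⟩

theorem vertex_swap {Γ : Finset (ℝ × ℝ)} {k : ℕ} {l l' p : ℝ × ℝ} (hp : Passes Γ k l l' p) {d : ℝ}
    (hd : 0 < d) (hg : ∀ x, p.1 - d < x → x < p.1 + d → x ≠ p.1 → Gen Γ x) :
    ∃ u w m x x', ((u = l ∧ w = l') ∨ (u = l' ∧ w = l)) ∧ (m = k ∨ m = k + 1) ∧
      Swap Γ d m p u w x x' := by
  classical
  obtain ⟨hl, hl', hne, h1, h2, δ, hδ, h3, h4⟩ := hp
  have hs : l.1 ≠ l'.1 := (eq_of_common hne (h1.trans h2.symm)).1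
  set ε := min δ d / 2 with hε
  have hε0 : 0 < ε := by positivity
  have hε1 : ε < d := by
    have := min_le_right δ d
    have := min_le_left δ d
    rw [hε]; linarith
  have hε2 : ε < δ := by
    have := min_le_left δ d
    rw [hε]; linarith
  have gx : Gen Γ (p.1 - ε) := hg _ (by linarith) (by linarith) (by linarith)
  have gx' : Gen Γ (p.1 + ε) := hg _ (by linarith) (by linarith) (by linarith)
  have rx := nlt_of_gen gx hl (h3 _ ⟨by linarith, by linarith⟩)
  have rx' := nlt_of_gen gx' hl' (h4 _ ⟨by linarith, by linarith⟩)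
  have hdiff : ∀ x, ev l x - ev l' x = (l.1 - l'.1) * (x - p.1) := by
    intro x
    unfold ev at *
    linarith
  rcases lt_or_gt_of_ne hs with h | h
  · have e1 : ev l' (p.1 - ε) < ev l (p.1 - ε) := by
      have := hdiff (p.1 - ε)
      nlinarith
    have e2 : ev l (p.1 + ε) < ev l' (p.1 + ε) := by
      have := hdiff (p.1 + ε)
      nlinarith
    refine ⟨l, l', k, p.1 - ε, p.1 + ε, Or.inl ⟨rfl, rfl⟩, Or.inl rfl, h, h1, h2, by linarith,
      by linarith, by linarith, by linarith, gx, gx', ?_, ?_, ?_, ?_⟩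
    · exact mem_Low.2 ⟨hl, by have := nlt_lt hl e2; omega⟩
    · intro h; have := (mem_Low.1 h).2; omega
    · exact mem_Low.2 ⟨hl', by have := nlt_lt hl' e1; omega⟩
    · intro h; have := (mem_Low.1 h).2; omega
  · have e1 : ev l (p.1 - ε) < ev l' (p.1 - ε) := by
      have := hdiff (p.1 - ε)
      nlinarith
    have e2 : ev l' (p.1 + ε) < ev l (p.1 + ε) := by
      have := hdiff (p.1 + ε)
      nlinarith
    refine ⟨l', l, k + 1, p.1 - ε, p.1 + ε, Or.inr ⟨rfl, rfl⟩, Or.inr rfl, h, h2, h1, by linarith,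
      by linarith, by linarith, by linarith, gx, gx', ?_, ?_, ?_, ?_⟩
    · exact mem_Low.2 ⟨hl', by omega⟩
    · intro h
      have h5 := (mem_Low.1 h).2
      have h6 := nlt_lt hl e1
      omega
    · exact mem_Low.2 ⟨hl, by omega⟩
    · intro h
      have h5 := (mem_Low.1 h).2
      have h6 := nlt_lt hl' e2
      omega

/-- A radius such that the vertices are separated and their punctured neighbourhoods are
generic. -/
theorem exists_radius (Γ : Finset (ℝ × ℝ)) (k : ℕ) : ∃ d : ℝ, 0 < d ∧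
    (∀ p q, IsVertex Γ k p → IsVertex Γ k q → p ≠ q → p.1 + 2 * d ≤ q.1 ∨ q.1 + 2 * d ≤ p.1) ∧
    ∀ p, IsVertex Γ k p → ∀ x, p.1 - d < x → x < p.1 + d → x ≠ p.1 → Gen Γ x := by
  classical
  set C : Finset ℝ := (Γ ×ˢ Γ).image fun q : (ℝ × ℝ) × (ℝ × ℝ) =>
    (q.2.2 - q.1.2) / (q.1.1 - q.2.1) with hC
  have hCmem : ∀ l ∈ Γ, ∀ l' ∈ Γ, l ≠ l' → ∀ x, ev l x = ev l' x → x ∈ C := by
    intro l hl l' hl' hne x hx
    rw [hC, Finset.mem_image]
    exact ⟨(l, l'), by simp [hl, hl'], (eq_of_common hne hx).2.symm⟩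
  obtain ⟨d, hd, hd0⟩ : ∃ d : ℝ, (∀ c ∈ C, ∀ c' ∈ C, c < c' → c + 2 * d < c') ∧ 0 < d := by
    have h : ∀ᶠ d in 𝓝[>] (0 : ℝ), ∀ c ∈ C, ∀ c' ∈ C, c < c' → c + 2 * d < c' := by
      rw [Finset.eventually_all]; intro c _
      rw [Finset.eventually_all]; intro c' _
      by_cases hcc : c < c'
      · have h1 : ContinuousAt (fun d : ℝ => c + 2 * d) 0 := by fun_prop
        have h2 := h1.eventually_lt (continuousAt_const (y := c')) (by simpa using hcc)
        filter_upwards [nhdsWithin_le_nhds h2] with d hd _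
        exact hd
      · exact Eventually.of_forall fun d h => absurd h hcc
    obtain ⟨d, hd, hd0⟩ := (h.and self_mem_nhdsWithin).exists
    exact ⟨d, hd, hd0⟩
  have hVC : ∀ p, IsVertex Γ k p → p.1 ∈ C := by
    intro p hp
    obtain ⟨l, hl, l', hl', hne, h1, h2, -⟩ := hp
    exact hCmem l hl l' hl' hne _ (h1.trans h2.symm)
  have hVlev : ∀ p, IsVertex Γ k p → p ∈ kLevel Γ k := by
    intro p hp
    obtain ⟨l, hl, l', hl', hne, h1, h2, δ, hδ, h3, -⟩ := hp
    have := h3 p.1 ⟨by linarith, le_rfl⟩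
    rw [h1] at this
    exact this
  refine ⟨d, hd0, ?_, ?_⟩
  · intro p q hp hq hne
    rcases lt_trichotomy p.1 q.1 with h | h | h
    · exact Or.inl (hd _ (hVC p hp) _ (hVC q hq) h).le
    · exfalso
      apply hne
      have h1 := hVlev p hp
      have h2 := hVlev q hq
      have e1 : p = (p.1, p.2) := rfl
      have e2 : q = (p.1, q.2) := by rw [h]
      rw [e1] at h1
      rw [e2] at h2
      have h3 := eq_of_mem h1 h2
      exact Prod.ext h h3
    · exact Or.inr (hd _ (hVC q hq) _ (hVC p hp) h).le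
  · intro p hp x h1 h2 h3 l hl l' hl' h
    by_contra hne
    have hx := hCmem l hl l' hl' hne x h
    rcases lt_or_gt_of_ne h3 with h4 | h4
    · have := hd _ hx _ (hVC p hp) h4; linarith
    · have := hd _ (hVC p hp) _ hx h4; linarith

/-- Counting vertices with finitely many rising and falling statuses: if every vertex of a set `V`
of vertices of the `k`-level is separated by one of the statuses, then `V` has at most
`a (2 (n - k) - 1) + b (2 k + 1)` elements, `a` and `b` being the numbers of rising and falling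
statuses. -/
theorem count_vertices {Γ : Finset (ℝ × ℝ)} {k : ℕ} (hk : k < Γ.card) {I J : Type} [Fintype I]
    [Fintype J] (R : I → ℝ × ℝ → ℝ → Prop) (F : J → ℝ × ℝ → ℝ → Prop)
    (hR : ∀ i, Rise Γ (R i)) (hF : ∀ j, Fall Γ (F j)) (P : ℝ × ℝ → ℝ × ℝ → ℝ × ℝ → Prop)
    (hcl : ∀ u w p, u ∈ Γ → w ∈ Γ → u.1 < w.1 → ev u p.1 = p.2 → ev w p.1 = p.2 →
      (P u w p ∨ P w u p) → ∀ x x', x < p.1 → p.1 < x' →
      (∃ i, ¬ R i u x ∧ R i w x') ∨ ∃ j, F j w x ∧ ¬ F j u x') :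
    {p | ∃ l l', Passes Γ k l l' p ∧ P l l' p}.ncard ≤
      Fintype.card I * (2 * (Γ.card - k) - 1) + Fintype.card J * (2 * k + 1) := by
  classical
  obtain ⟨d, hd0, hsep, hgen⟩ := exists_radius Γ k
  have hfin : {p | ∃ l l', Passes Γ k l l' p ∧ P l l' p}.Finite :=
    (vertex_finite Γ k).subset fun p ⟨l, l', h, _⟩ => isVertex_iff.2 ⟨l, l', h⟩
  set V : Finset (ℝ × ℝ) := hfin.toFinset with hV
  have hVmem : ∀ p, p ∈ V ↔ ∃ l l', Passes Γ k l l' p ∧ P l l' p := by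
    intro p; rw [hV, Set.Finite.mem_toFinset]; rfl
  have hVv : ∀ p ∈ V, IsVertex Γ k p := by
    intro p hp
    obtain ⟨l, l', h, -⟩ := (hVmem p).1 hp
    exact isVertex_iff.2 ⟨l, l', h⟩
  rw [Set.ncard_eq_toFinset_card _ hfin]
  have hcover : V ⊆ ((Finset.univ : Finset I).biUnion fun i =>
      (V.filter fun p => SepR Γ d k (R i) p) ∪ (V.filter fun p => SepR Γ d (k + 1) (R i) p)) ∪
      ((Finset.univ : Finset J).biUnion fun j =>
      (V.filter fun p => SepF Γ d k (F j) p) ∪ (V.filter fun p => SepF Γ d (k + 1) (F j) p)) := by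
    intro p hp
    obtain ⟨l, l', h, hP⟩ := (hVmem p).1 hp
    obtain ⟨u, w, m, x, x', huw, hm, h1⟩ := vertex_swap h hd0 (hgen p (hVv p hp))
    have hP' : P u w p ∨ P w u p := by
      rcases huw with ⟨rfl, rfl⟩ | ⟨rfl, rfl⟩
      · exact Or.inl hP
      · exact Or.inr hP
    have hu : u ∈ Γ := Low_sub h1.u1
    have hw : w ∈ Γ := Low_sub h1.w1
    rw [Finset.mem_union]
    rcases hcl u w p hu hw h1.hs h1.hu h1.hw hP' x x' h1.x2 h1.x3 with ⟨i, h2, h3⟩ | ⟨j, h2, h3⟩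
    · left
      have h4 : SepR Γ d m (R i) p := ⟨x, x', h1.x1, h1.x2, h1.x3, h1.x4, h1.gx, h1.gx', u, w,
        h1.u1, h1.u2, h1.w1, h1.w2, h2, h3⟩
      rw [Finset.mem_biUnion]
      refine ⟨i, Finset.mem_univ _, ?_⟩
      rw [Finset.mem_union, Finset.mem_filter, Finset.mem_filter]
      rcases hm with rfl | rfl
      · exact Or.inl ⟨hp, h4⟩
      · exact Or.inr ⟨hp, h4⟩
    · right
      have h4 : SepF Γ d m (F j) p := ⟨x, x', h1.x1, h1.x2, h1.x3, h1.x4, h1.gx, h1.gx', u, w,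
        h1.u1, h1.u2, h1.w1, h1.w2, h2, h3⟩
      rw [Finset.mem_biUnion]
      refine ⟨j, Finset.mem_univ _, ?_⟩
      rw [Finset.mem_union, Finset.mem_filter, Finset.mem_filter]
      rcases hm with rfl | rfl
      · exact Or.inl ⟨hp, h4⟩
      · exact Or.inr ⟨hp, h4⟩
  have hV2 : ∀ Q : ℝ × ℝ → Prop, ∀ p ∈ V.filter Q, ∀ q ∈ V.filter Q, p ≠ q →
      p.1 + 2 * d ≤ q.1 ∨ q.1 + 2 * d ≤ p.1 := fun Q p hp q hq =>
    hsep p q (hVv p (Finset.mem_filter.1 hp).1) (hVv q (Finset.mem_filter.1 hq).1)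
  have hbR : ∀ i ∈ (Finset.univ : Finset I), ((V.filter fun p => SepR Γ d k (R i) p) ∪
      (V.filter fun p => SepR Γ d (k + 1) (R i) p)).card ≤ 2 * (Γ.card - k) - 1 := by
    intro i _
    have h1 := rise_card (hR i) (d := d) (m := k) (by omega) (V.filter fun p => SepR Γ d k (R i) p)
      (hV2 _) (fun p hp => (Finset.mem_filter.1 hp).2)
    have h2 := rise_card (hR i) (d := d) (m := k + 1) (by omega)
      (V.filter fun p => SepR Γ d (k + 1) (R i) p)
      (hV2 _) (fun p hp => (Finset.mem_filter.1 hp).2)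
    have h3 := Finset.card_union_le (V.filter fun p => SepR Γ d k (R i) p)
      (V.filter fun p => SepR Γ d (k + 1) (R i) p)
    omega
  have hbF : ∀ j ∈ (Finset.univ : Finset J), ((V.filter fun p => SepF Γ d k (F j) p) ∪
      (V.filter fun p => SepF Γ d (k + 1) (F j) p)).card ≤ 2 * k + 1 := by
    intro j _
    have h1 := fall_card (hF j) (d := d) (m := k) (by omega) (V.filter fun p => SepF Γ d k (F j) p)
      (hV2 _) (fun p hp => (Finset.mem_filter.1 hp).2)
    have h2 := fall_card (hF j) (d := d) (m := k + 1) (by omega)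
      (V.filter fun p => SepF Γ d (k + 1) (F j) p)
      (hV2 _) (fun p hp => (Finset.mem_filter.1 hp).2)
    have h3 := Finset.card_union_le (V.filter fun p => SepF Γ d k (F j) p)
      (V.filter fun p => SepF Γ d (k + 1) (F j) p)
    omega
  refine (Finset.card_le_card hcover).trans ((Finset.card_union_le _ _).trans ?_)
  refine Nat.add_le_add ?_ ?_
  · refine Finset.card_biUnion_le.trans ((Finset.sum_le_card_nsmul _ _ _ hbR).trans ?_)
    rw [smul_eq_mul, Finset.card_univ]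
  · refine Finset.card_biUnion_le.trans ((Finset.sum_le_card_nsmul _ _ _ hbF).trans ?_)
    rw [smul_eq_mul, Finset.card_univ]

end Pool.Agent.KLC
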